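import Pool.Agent.ASD.Stmts4
import Pool.Agent.Helper25_ASD.LBD
import Pool.Agent.Helper89_ASO.LBU
import Pool.Agent.Helper62_AT3.CO2

/-!
# Squad ASD, row RDA: the datum of the local block of `W`
-/

open scoped BigOperators

set_option autoImplicit false

noncomputable section

namespace Pool.Agent.PP.SD.H49

open Pool.Agent.Helper51_AWC Pool.Agent.Helper79_WRA Pool.Agent.PP Pool.Agent.PP.KF
open Pool.Agent.PP.K9 Pool.Agent.PP.K9.H97 Pool.Agent.PP.H75 Pool.Agent.PP.T3 Pool.Agent.PP.SO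
open Pool.Agent.PP.T3.H85 Pool.Agent.PP.T3.H88

attribute [local instance] Ideal.Quotient.field

section tools

variable {F V₀ G : Type} [Field F] [CommGroup V₀] [Group G]

/-- uniqueness of the block over `g` -/
theorem uniq1 [Finite G] {ℓ : ℕ} [Fact ℓ.Prime] (hF : GoodF ℓ F) {g : G → F} {V H : Subgroup G}
    (hV : IsPGroup ℓ V) (hVC : V ≤ H) (hg : g ≠ 0) {b b' : G → F} (hb : Bx H b) (hb' : Bx H b')
    (h1 : mulF (br V b) g = g) (h2 : mulF (br V b') g = g) : b = b' := by
  rcases hb.dich hb' with h | h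
  · exact h
  · exfalso
    apply hg
    have h3 := SO.H89.br_mul' hF hV hVC hb.ix hb'.ix
    rw [h, br_zero] at h3
    calc g = mulF (br V b) (mulF (br V b') g) := by rw [h2, h1]
      _ = mulF (mulF (br V b) (br V b')) g := (mulF_assoc _ _ _).symm
      _ = 0 := by rw [← h3, mulF_zero_left]

theorem mem_C (B : Bk F V₀ G) (W : Subgroup V₀) (x : G) :
    x ∈ B.C W ↔ ∀ w ∈ W, B.i w * x = x * B.i w := by
  constructor
  · intro h w hw
    exact Subgroup.mem_centralizer_iff.1 h (B.i w) ⟨w, hw, rfl⟩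
  · intro h
    refine Subgroup.mem_centralizer_iff.2 ?_
    rintro _ ⟨w, hw, rfl⟩
    exact h w hw

theorem C_sup (B : Bk F V₀ G) (W W' : Subgroup V₀) (x : G) :
    x ∈ B.C (W ⊔ W') ↔ x ∈ B.C W ∧ x ∈ B.C W' := by
  constructor
  · intro h
    rw [mem_C] at h
    constructor
    · rw [mem_C]
      exact fun w hw => h w (Subgroup.mem_sup_left hw)
    · rw [mem_C]
      exact fun w hw => h w (Subgroup.mem_sup_right hw)
  · rintro ⟨h1, h2⟩
    rw [mem_C] at h1 h2 ⊢
    have h3 : W ⊔ W' ≤ (Subgroup.centralizer ({x} : Set G)).comap B.i := by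
      rw [sup_le_iff]
      constructor
      · intro w hw
        rw [Subgroup.mem_comap, Subgroup.mem_centralizer_singleton_iff]
        exact h1 w hw
      · intro w hw
        rw [Subgroup.mem_comap, Subgroup.mem_centralizer_singleton_iff]
        exact h2 w hw
    intro w hw
    exact Subgroup.mem_centralizer_singleton_iff.1 (Subgroup.mem_comap.1 (h3 hw))

theorem i_mem (B : Bk F V₀ G) (W : Subgroup V₀) (v : V₀) : B.i v ∈ B.C W := by
  rw [mem_C]
  intro w _
  rw [← map_mul, ← map_mul, mul_comm]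

/-- the embedding of the defect group in the centraliser of `W` -/
def iW (B : Bk F V₀ G) (W : Subgroup V₀) : V₀ →* B.C W := B.i.codRestrict (B.C W) (i_mem B W)

/-- the datum of the local block of `W` -/
def loc (B : Bk F V₀ G) (W : Subgroup V₀) : Bk F V₀ (B.C W) where
  e := fun t => B.b W t
  g := fun t => B.g t
  i := iW B W
  b := fun W' t => B.b (W ⊔ W') t
  D := fun _ => 0
  S := fun _ => 0

theorem iW_coe (B : Bk F V₀ G) (W : Subgroup V₀) (v : V₀) : (iW B W v : G) = B.i v := rfl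

theorem mem_cen (B : Bk F V₀ G) (W W' : Subgroup V₀) (t : B.C W) :
    t ∈ Subgroup.centralizer ((W'.map (iW B W) : Subgroup (B.C W)) : Set (B.C W)) ↔
      (t : G) ∈ B.C (W ⊔ W') := by
  rw [C_sup, Subgroup.mem_centralizer_iff, mem_C B W']
  constructor
  · intro h
    refine ⟨t.2, fun w hw => ?_⟩
    exact congrArg Subtype.val (h (iW B W w) ⟨w, hw, rfl⟩)
  · rintro ⟨_, h⟩ _ ⟨w, hw, rfl⟩
    exact Subtype.ext (h w hw)

/-- the centralisers of `W'` in `C W` and of `W ⊔ W'` in `G` -/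
def cenE (B : Bk F V₀ G) (W W' : Subgroup V₀) :
    Subgroup.centralizer ((W'.map (iW B W) : Subgroup (B.C W)) : Set (B.C W)) ≃*
      B.C (W ⊔ W') where
  toFun t := ⟨((t : B.C W) : G), (mem_cen B W W' t).1 t.2⟩
  invFun t := ⟨⟨(t : G), ((C_sup B W W' t).1 t.2).1⟩, (mem_cen B W W' _).2 t.2⟩
  left_inv _ := rfl
  right_inv _ := rfl
  map_mul' _ _ := rfl

theorem range_iW (B : Bk F V₀ G) (W : Subgroup V₀) :
    (iW B W).range = B.i.range.subgroupOf (B.C W) := by
  ext t
  rw [Subgroup.mem_subgroupOf]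
  constructor
  · rintro ⟨v, rfl⟩
    exact ⟨v, rfl⟩
  · rintro ⟨v, hv⟩
    exact ⟨v, Subtype.ext hv⟩

theorem sum_res {K : Type} [Field K] [Finite G] (X : Subgroup G) (f : G → K)
    (hf : ∀ x, x ∉ X → f x = 0) : ∑ᶠ x, f x = ∑ᶠ t : X, f t := by
  have h1 : ∑ᶠ x, f x = ∑ᶠ x ∈ (X : Set G), f x := by
    rw [finsum_mem_def]
    apply finsum_congr
    intro x
    by_cases hx : x ∈ X
    · rw [Set.indicator_of_mem (show x ∈ (X : Set G) from hx)]
    · rw [Set.indicator_of_notMem (show x ∉ (X : Set G) from hx), hf x hx]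
  rw [h1, ← finsum_set_coe_eq_finsum_mem]
  rfl

end tools

/-- RDA -/
theorem rda_ (lbd : LbdStmt) (lbu : LbuStmt) : RdaStmt := by
  intro ℓ _ M _ hM hℓ2 V₀ G _ _ _ _ E₀ hFq B hB W
  have hF : GoodF ℓ (FF M) := H50.fld ℓ Fact.out M hM
  have hL := hB.ld
  have hVX : B.i.range ≤ B.C W := by
    rintro _ ⟨v, rfl⟩
    exact i_mem B W v
  have hCX : Subgroup.centralizer (B.i.range : Set G) ≤ B.C W := by
    refine Subgroup.centralizer_le ?_
    rintro _ ⟨w, _, rfl⟩
    exact ⟨w, rfl⟩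
  have hTg : Tg (iW B W).range (fun t : B.C W => B.g t) =
      (Tg B.i.range B.g ⊓ B.C W).subgroupOf (B.C W) := by
    rw [range_iW]
    exact Tg_eq hVX hCX hL.gam.supp
  have hFq' : Fq ℓ V₀ (St E₀ W) := by
    refine ⟨hFq.ex, hFq.cd, fun h => hFq.cp (h.trans ?_)⟩
    exact Subgroup.card_dvd_of_le (fun σ hσ => hσ.1)
  have hinj : Function.Injective (iW B W) := by
    intro v v' h
    exact hB.inj (congrArg Subtype.val h)
  have hld : Ld ℓ (fun t : B.C W => B.b W t) (iW B W).range (fun t : B.C W => B.g t) := by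
    rw [range_iW]
    exact (lbd ℓ M hM V₀ G E₀ hFq B hB W).1
  -- the local blocks
  have hlb : ∀ W', Lb (fun t : B.C W => B.b W t) (fun t : B.C W => B.g t) (iW B W) W'
      (fun t : B.C W => B.b (W ⊔ W') t) := by
    intro W'
    obtain ⟨b', hb'⟩ := (lbu ℓ (FF M) hF V₀ (B.C W) (fun t : B.C W => B.b W t)
      (fun t : B.C W => B.g t) (iW B W) hinj hld).1 W'
    have hlbG := hB.lb (W ⊔ W')
    obtain ⟨β, hβ⟩ : ∃ β, β = H75.ext0 (B.C W) b' := ⟨_, rfl⟩
    have hβt : ∀ t : B.C W, β t = b' t := by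
      intro t
      rw [hβ]
      exact H75.ext0_apply _ _ _
    have hbx : Bx (B.C (W ⊔ W')) β := by
      constructor
      · intro x hx
        by_cases hxW : x ∈ B.C W
        · have h1 := hβt ⟨x, hxW⟩
          change β x = _ at h1
          rw [h1]
          apply hb'.blk.supp
          intro h
          exact hx ((mem_cen B W W' _).1 h)
        · rw [hβ]
          exact H75.ext0_supp _ _ x hxW
      · have h1 := H20.IsBlk_equiv (cenE B W W').symm hb'.blk.blk
        have h2 : (fun t : B.C (W ⊔ W') => β t) = fun t : B.C (W ⊔ W') =>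
            b' ((cenE B W W').symm t) := by
          funext t
          exact hβt ⟨t, _⟩
        rw [h2]
        exact h1
    have hgam : mulF (br B.i.range β) B.g = B.g := by
      have h0 := hb'.gam
      have h1 : br (iW B W).range b' = fun t : B.C W => br B.i.range β t := by
        rw [range_iW]
        funext t
        by_cases ht : (t : G) ∈ Subgroup.centralizer (B.i.range : Set G)
        · rw [H66.br_of_mem ht, H66.br_of_mem ((cent_sub hVX t).2 ht), hβt]
        · rw [H66.br_of_not_mem ht, H66.br_of_not_mem (fun h => ht ((cent_sub hVX t).1 h))]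
      rw [h1, ← mulF_res (B.C W) B.g (fun x hx => H66.br_of_not_mem (fun h => hx (hCX h)))] at h0
      exact eq_of_res (mulF_supp (B.C W) (fun x hx => H66.br_of_not_mem (fun h => hx (hCX h)))
        (fun x hx => hL.gam.supp x (fun h => hx (hCX h)))) (fun x hx => hL.gam.supp x
          (fun h => hx (hCX h))) h0
    have hVle : B.i.range ≤ B.C (W ⊔ W') := by
      rintro _ ⟨v, rfl⟩
      exact i_mem B _ v
    have hfin : β = B.b (W ⊔ W') :=
      uniq1 hF hL.tp.pg hVle hL.gam.ne hbx hlbG.blk hgam hlbG.gam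
    have h3 : (fun t : B.C W => B.b (W ⊔ W') t) = b' := by
      funext t
      rw [← hfin]
      exact hβt t
    rw [h3]
    exact hb'
  have hSb : Sb ℓ M (St E₀ W) (loc B W) := by
    refine ⟨hinj, hld, ?_, ?_, hlb⟩
    · intro t ht
      change t ∈ Tg (iW B W).range (fun t : B.C W => B.g t) at ht
      rw [hTg, Subgroup.mem_subgroupOf] at ht
      obtain ⟨σ, hσ, h1⟩ := hB.act t ht.1
      refine ⟨σ, ⟨hσ, fun w hw => ?_⟩, fun v => Subtype.ext (h1 v)⟩
      apply hB.inj
      have h2 := (mem_C B W t).1 t.2 w hw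
      rw [← h1 w, ← h2, mul_inv_cancel_right]
    · intro σ hσ
      obtain ⟨t, ht, h1⟩ := hB.sur σ hσ.1
      have htC : t ∈ B.C W := by
        rw [mem_C]
        intro w hw
        have h2 := h1 w
        rw [hσ.2 w hw] at h2
        calc B.i w * t = t * B.i w * t⁻¹ * t := by rw [h2]
          _ = t * B.i w := by group
      refine ⟨⟨t, htC⟩, ?_, fun v => Subtype.ext (h1 v)⟩
      change (⟨t, htC⟩ : B.C W) ∈ Tg (iW B W).range (fun t : B.C W => B.g t)
      rw [hTg, Subgroup.mem_subgroupOf]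
      exact ⟨ht, htC⟩
  have hcard : ∀ W', Nat.card ((loc B W).C W') = Nat.card (B.C (W ⊔ W')) := fun W' =>
    Nat.card_congr (cenE B W W').toEquiv
  -- the lifts
  have hbh : ∀ (W' : Subgroup V₀) (t : B.C W), bh (loc B W) W' t = bh B (W ⊔ W') t := by
    intro W' t
    by_cases ht : (t : G) ∈ B.C (W ⊔ W')
    · have ht' : t ∈ (loc B W).C W' := (mem_cen B W W' t).2 ht
      have h1 := H62.eh_equiv (M := M) (cenE B W W') (b := fun a => B.b (W ⊔ W') ((a : B.C W) : G))
        (hlb W').blk.blk.1.1 ⟨t, ht'⟩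
      have h2 : bh (loc B W) W' t = eh M (fun a : (loc B W).C W' => (loc B W).b W' a)
          ⟨t, ht'⟩ := by
        unfold bh PP.ext0
        rw [dif_pos ht']
      have h3 : bh B (W ⊔ W') t = eh M (fun a : B.C (W ⊔ W') => B.b (W ⊔ W') a) ⟨t, ht⟩ := by
        unfold bh PP.ext0
        rw [dif_pos ht]
      rw [h2, h3]
      exact h1.symm
    · have ht' : t ∉ (loc B W).C W' := fun h => ht ((mem_cen B W W' t).1 h)
      unfold bh PP.ext0
      rw [dif_neg ht, dif_neg ht']
  have hfc : ∀ (x : V₀) (t : B.C W), fc (loc B W) ⊥ x t = fc B W x t := by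
    intro x t
    unfold fc
    rw [hcard]
    have h1 : W ⊔ (⊥ ⊔ Subgroup.zpowers x) = W ⊔ Subgroup.zpowers x := by rw [bot_sup_eq]
    rw [h1]
    congr 1
    have htop : ∀ z : B.C W, z ∈ (loc B W).C ⊥ := by
      intro z
      refine (mem_cen B W ⊥ z).2 ?_
      rw [sup_bot_eq]
      exact z.2
    rw [← finsum_comp_equiv (⟨fun z => ⟨z, htop z⟩, fun z => (z : B.C W), fun _ => rfl,
      fun _ => rfl⟩ : B.C W ≃ (loc B W).C ⊥)]
    apply finsum_congr
    intro z
    rw [hbh, h1]
    rfl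
  have hcv : ∀ χ : G → ℂ, (∀ t, t ∉ B.C W → χ t = 0) → ∀ x,
      SO.cv (fc (loc B W) ⊥ x) (fun t : B.C W => χ t) = SO.cv (fc B W x) χ := by
    intro χ hχ x
    unfold SO.cv
    congr 1
    rw [sum_res (B.C W) (fun g => fc B W x g * χ g) (fun g hg => by rw [hχ g hg, mul_zero])]
    apply finsum_congr
    intro t
    rw [hfc]
  refine ⟨hFq', loc B W, hSb, fun _ => rfl, fun _ => rfl, fun _ => rfl, fun _ _ => rfl,
    fun W' t => mem_cen B W W' t, hcard, hfc, fun χ hχ => ⟨?_, hcv χ hχ⟩, fun κ => ?_⟩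
  · exact ⟨fun h => h.2, fun h => ⟨hχ, h⟩⟩
  · unfold L1 L1A
    symm
    refine finsum_mem_eq_of_bijOn (fun (χ : G → ℂ) => fun t : B.C W => χ t) ⟨?_, ?_, ?_⟩ ?_
    · intro χ hχ
      exact hχ.2
    · intro χ hχ χ' hχ' h
      funext x
      by_cases hx : x ∈ B.C W
      · exact congrFun h ⟨x, hx⟩
      · rw [hχ.1 x hx, hχ'.1 x hx]
    · intro κ' hκ'
      refine ⟨H75.ext0 (B.C W) κ', ⟨H75.ext0_supp _ _, ?_⟩, ?_⟩
      · have h1 : (fun t : B.C W => H75.ext0 (B.C W) κ' t) = κ' := by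
          funext t
          exact H75.ext0_apply _ _ _
        rw [h1]
        exact hκ'
      · funext t
        exact H75.ext0_apply _ _ _
    · intro χ hχ
      exact (hcv χ hχ.1 κ).symm

/-- RDA -/
theorem rda : RdaStmt := rda_ SD.H25.lbd SO.H89.lbu

end Pool.Agent.PP.SD.H49
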