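import Pool.Agent.ASD.Stmts3
import Pool.Agent.ASD.Stmts4
import Pool.Agent.ASO.Stmts3
import Pool.Agent.ASO.StmtsH
import Pool.Agent.Helper41_AT3.NIT
import Pool.Agent.Helper33_ASO.Lin
import Pool.Agent.Helper62_AT3.CO2
import Pool.Agent.Helper85_AT3.LSB

/-!
# Squad ASD, row CND: integrality of the weights of the frames
-/

open scoped BigOperators

set_option autoImplicit false

noncomputable section

namespace Pool.Agent.PP.SD.H49

open Pool.Agent.Helper51_AWC Pool.Agent.Helper79_WRA Pool.Agent.PP Pool.Agent.PP.KF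
open Pool.Agent.PP.K9 Pool.Agent.PP.K9.H97 Pool.Agent.PP.H75 Pool.Agent.PP.T3 Pool.Agent.PP.SO

attribute [local instance] Ideal.Quotient.field

/-- the dual character -/
theorem cnd_irr_inv {H : Type} [Group H] [Finite H] {χ : H → ℂ} (hχ : χ ∈ Irr H) :
    (fun h => χ h⁻¹) ∈ Irr H := by
  classical
  have := Fintype.ofFinite H
  obtain ⟨n, r, r1, r2, r3⟩ := irr_coeff hχ
  refine mem_Irr_of_coeff (fun g a b => r g⁻¹ b a) ?_ ?_ _ (fun g => r3 g⁻¹) ?_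
  · intro a b
    rw [inv_one, r1]
    by_cases h : a = b
    · rw [if_pos h, if_pos h.symm]
    · rw [if_neg h, if_neg (Ne.symm h)]
  · intro g h a b
    rw [mul_inv_rev, r2]
    exact Finset.sum_congr rfl fun c _ => mul_comm _ _
  · simp only [inv_inv]
    rw [← irr_orth_self hχ]
    exact Finset.sum_congr rfl fun g _ => mul_comm _ _

theorem cnd_card_cu {G : Type} [Group G] (H : Subgroup G) (s : G) (hs : s ∈ H) :
    Nat.card (Cu (⟨s, hs⟩ : H)) = Nat.card (H ⊓ Cu s : Subgroup G) := by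
  refine Nat.card_congr
    { toFun := fun z => ⟨z.1.1, z.1.2, ?_⟩
      invFun := fun z => ⟨⟨z.1, z.2.1⟩, ?_⟩
      left_inv := fun z => rfl
      right_inv := fun z => rfl }
  · have h1 := Subgroup.mem_centralizer_singleton_iff.1 z.2
    exact Subgroup.mem_centralizer_singleton_iff.2 (congrArg Subtype.val h1)
  · have h1 := Subgroup.mem_centralizer_singleton_iff.1 z.2.2
    exact Subgroup.mem_centralizer_singleton_iff.2 (Subtype.ext h1)

theorem cnd_cu_pow {H : Type} [Group H] {ℓ : ℕ} [hℓ : Fact ℓ.Prime] {x : H} (hx : x ^ ℓ = 1)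
    {j : ℕ} (hj : ¬ ℓ ∣ j) : Cu (x ^ j) = Cu x := by
  have h1 : orderOf x ∣ ℓ := orderOf_dvd_of_pow_eq_one hx
  have h2 : j.Coprime (orderOf x) := by
    refine Nat.Coprime.coprime_dvd_right h1 ?_
    exact ((Nat.Prime.coprime_iff_not_dvd hℓ.out).2 hj).symm
  obtain ⟨m, hm⟩ := exists_pow_eq_self_of_coprime h2
  ext y
  rw [Subgroup.mem_centralizer_singleton_iff, Subgroup.mem_centralizer_singleton_iff]
  constructor
  · intro h
    rw [← hm]
    exact (show Commute y (x ^ j) from h).pow_right m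
  · intro h
    exact (show Commute y x from h).pow_right j

section bk

variable {V₀ G : Type} [CommGroup V₀] [Group G] {M : Ideal (integralClosure ℤ ℂ)} [M.IsMaximal]

theorem cnd_bh_mem (B : Bk (FF M) V₀ G) (W : Subgroup V₀) (t : B.C W) :
    bh B W t = eh M (fun t : B.C W => B.b W t) t := by
  unfold bh
  rw [PP.ext0, dif_pos t.2]

theorem cnd_bh_off (B : Bk (FF M) V₀ G) (W : Subgroup V₀) {g : G} (hg : g ∉ B.C W) :
    bh B W g = 0 := by
  unfold bh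
  rw [PP.ext0, dif_neg hg]

theorem cnd_bh_sing {ℓ : ℕ} [Fact ℓ.Prime] (hM : (ℓ : integralClosure ℤ ℂ) ∈ M) [Finite G]
    {E₀ : Subgroup (MulAut V₀)} {B : Bk (FF M) V₀ G} (hB : Sb ℓ M E₀ B) (W : Subgroup V₀) {g : G}
    (hg : ¬ Reg ℓ g) : bh B W g = 0 := by
  by_cases h : g ∈ B.C W
  · have := Fintype.ofFinite (B.C W)
    have h1 := cnd_bh_mem B W ⟨g, h⟩
    rw [show ((⟨g, h⟩ : B.C W) : G) = g from rfl] at h1
    rw [h1]
    have hid : IsIdem (fun t : B.C W => B.b W t) := (hB.lb W).blk.blk.1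
    refine K9.H25.eh_sing T3.H62.wbo_ ℓ M hM _ hid _ ?_
    intro h2
    apply hg
    unfold Reg at h2 ⊢
    rwa [← Subgroup.orderOf_coe] at h2
  · exact cnd_bh_off B W h

theorem cnd_bh_cl [Finite G] (B : Bk (FF M) V₀ G) (W : Subgroup V₀) (x y : B.C W) :
    bh B W ((y * x * y⁻¹ : B.C W) : G) = bh B W x := by
  have := Fintype.ofFinite (B.C W)
  rw [cnd_bh_mem, cnd_bh_mem, K9.H25.eh_cl]

open Classical in
theorem cnd_bh_chv [Fintype G] (B : Bk (FF M) V₀ G) (W : Subgroup V₀) [Fintype (B.C W)]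
    {ψ : B.C W → ℂ} (hψ : ψ ∈ Irr (B.C W)) :
    ∑ t : B.C W, bh B W t * ψ t = if ψ ∈ IrrE M (fun t : B.C W => B.b W t) then ψ 1 else 0 := by
  rw [← K9.H25.eh_chv M _ hψ]
  exact Finset.sum_congr rfl fun t _ => by rw [cnd_bh_mem]

theorem cnd_C_anti (B : Bk (FF M) V₀ G) {W W' : Subgroup V₀} (h : W ≤ W') : B.C W' ≤ B.C W := by
  unfold Bk.C
  exact Subgroup.centralizer_le (SetLike.coe_subset_coe.2 (Subgroup.map_mono h))

end bk

theorem cnd_Rl_RM {ℓ : ℕ} [Fact ℓ.Prime] {M : Ideal (integralClosure ℤ ℂ)} [M.IsMaximal]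
    (hM : (ℓ : integralClosure ℤ ℂ) ∈ M) {q : ℚ} (hq : q ∈ SOR.Rl ℓ) : ((q : ℚ) : ℂ) ∈ RM M := by
  have h1 : ¬ ℓ ∣ q.den := hq
  have h2 := inv_nat_RM (M := M) (Fact.out : ℓ.Prime) hM h1
  have h3 : ((q : ℚ) : ℂ) = (q.num : ℂ) * ((q.den : ℕ) : ℂ)⁻¹ := by
    rw [← div_eq_mul_inv]
    exact_mod_cast (Rat.num_div_den q).symm
  rw [h3]
  exact (RM M).mul_mem (intCast_mem _ _) h2

/-- a rational number in the local ring has a denominator prime to `ℓ` -/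
theorem cnd_RM_Rl {ℓ : ℕ} [hℓ : Fact ℓ.Prime] {M : Ideal (integralClosure ℤ ℂ)} [M.IsMaximal]
    (hM : (ℓ : integralClosure ℤ ℂ) ∈ M) {q : ℚ} (h : (q : ℂ) ∈ RM M) : q ∈ SOR.Rl ℓ := by
  intro hd
  have e1 : (q.num : ℂ) = (q : ℂ) * ((q.den : ℤ) : ℂ) := by
    have h1 : (q : ℚ) * q.den = q.num := Rat.mul_den_eq_num q
    have h2 := congrArg (fun r : ℚ => (r : ℂ)) h1
    push_cast at h2 ⊢
    exact h2.symm
  have e2 : rr M ((q.den : ℤ) : ℂ) = 0 := by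
    rw [dvd_of_rr hℓ.out hM]
    exact_mod_cast hd
  have e3 : rr M (q.num : ℂ) = 0 := by
    rw [e1, rr_mul h (rr_int _).1, e2, mul_zero]
  rw [dvd_of_rr hℓ.out hM] at e3
  have h3 : ℓ ∣ q.num.natAbs := Int.natCast_dvd.1 e3
  have h4 := Nat.Coprime.eq_one_of_dvd
    (Nat.Coprime.coprime_dvd_left h3 q.reduced) hd
  exact hℓ.out.one_lt.ne' h4

/-- a rational number in the local ring with residue `1` -/
theorem cnd_rat_one {ℓ : ℕ} [hℓ : Fact ℓ.Prime] {M : Ideal (integralClosure ℤ ℂ)} [M.IsMaximal]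
    (hM : (ℓ : integralClosure ℤ ℂ) ∈ M) {q : ℚ} (h : (q : ℂ) ∈ RM M) (h1 : rr M (q : ℂ) = 1) :
    ∃ q' ∈ SOR.Rl ℓ, q = 1 + ℓ * q' := by
  have hden : ¬ ℓ ∣ q.den := cnd_RM_Rl hM h
  have e1 : (q.num : ℂ) = (q : ℂ) * ((q.den : ℤ) : ℂ) := by
    have h1 : (q : ℚ) * q.den = q.num := Rat.mul_den_eq_num q
    have h2 := congrArg (fun r : ℚ => (r : ℂ)) h1
    push_cast at h2 ⊢
    exact h2.symm
  have e3 : rr M (q.num : ℂ) = rr M ((q.den : ℤ) : ℂ) := by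
    rw [e1, rr_mul h (rr_int _).1, h1, one_mul]
  have e4 : rr M (((q.num - (q.den : ℤ) : ℤ)) : ℂ) = 0 := by
    rw [Int.cast_sub, rr_sub (rr_int _).1 (rr_int _).1, e3, sub_self]
  rw [dvd_of_rr hℓ.out hM] at e4
  obtain ⟨k, hk⟩ := e4
  have hd0 : (q.den : ℚ) ≠ 0 := Nat.cast_ne_zero.2 q.den_ne_zero
  refine ⟨(k : ℚ) / q.den, ?_, ?_⟩
  · apply cnd_RM_Rl hM
    have e5 : (((k : ℚ) / q.den : ℚ) : ℂ) = (k : ℂ) * ((q.den : ℂ))⁻¹ := by
      push_cast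
      rw [div_eq_mul_inv]
    rw [e5]
    exact (RM M).mul_mem (rr_int _).1 (inv_nat_RM hℓ.out hM hden)
  · have e6 : (q.num : ℚ) = q.den + ℓ * k := by
      have h5 : q.num = q.den + ℓ * k := by linarith
      exact_mod_cast h5
    have e8 : q * q.den = q.den + ℓ * k := by
      rw [← e6]
      exact Rat.mul_den_eq_num q
    obtain ⟨D, hD⟩ : ∃ D : ℚ, D = (q.den : ℚ) := ⟨_, rfl⟩
    rw [← hD] at e8 hd0 ⊢
    field_simp
    linarith

section key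

variable {ℓ : ℕ} [hℓ : Fact ℓ.Prime] {M : Ideal (integralClosure ℤ ℂ)} [M.IsMaximal]
  (hM : (ℓ : integralClosure ℤ ℂ) ∈ M) {V₀ G : Type} [CommGroup V₀] [Finite V₀] [Group G]
  [Fintype G] {E₀ : Subgroup (MulAut V₀)}

omit hℓ [Finite V₀] in
theorem cnd_st (c : V₀) : St E₀ (Subgroup.zpowers c) = Es E₀ c := by
  ext σ
  constructor
  · rintro ⟨h1, h2⟩
    exact ⟨h1, h2 c (Subgroup.mem_zpowers c)⟩
  · rintro ⟨h1, h2⟩
    refine ⟨h1, ?_⟩
    intro w hw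
    obtain ⟨k, rfl⟩ := Subgroup.mem_zpowers_iff.1 hw
    rw [map_zpow, h2]

omit [Finite V₀] in
theorem cnd_rw_top (hFq : Fq ℓ V₀ E₀) : Rw E₀ (⊤ : Subgroup V₀) := by
  refine ⟨?_, ?_⟩
  · intro h
    have h1 : Nat.card (⊤ : Subgroup V₀) = 1 := by rw [h, Subgroup.card_bot]
    rw [Subgroup.card_top, hFq.cd] at h1
    have h3 := hℓ.out.two_le
    nlinarith
  · intro σ _ h
    apply MulEquiv.ext
    intro v
    exact h v (Subgroup.mem_top v)

include hM in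
theorem cnd_key (h2 : ℓ ≠ 2) (rda : RdaStmt) (homr : HOmrStmt) (htz : HTzStmt)
    (hlnk : HLnkStmt) (inr : InrStmt) (smg : SmgStmt) (hFq : Fq ℓ V₀ E₀) {B : Bk (FF M) V₀ G}
    (hB : Sd ℓ M E₀ B) {W : Subgroup V₀} [Fintype (B.C W)] (hW : W ≠ ⊥) {x : V₀} (hx : x ∉ W)
    {ψ : B.C W → ℂ} (hψ : ψ ∈ Irr (B.C W)) {ζ : ℂ} (hζ : IsPrimitiveRoot ζ ℓ) :
    ∃ m : ℕ → ℤ, (∑ t : B.C W, bh B ⊤ t * ψ t = B.D ⊤ * ∑ i ∈ Finset.range ℓ, (m i : ℂ)) ∧
      (ψ ∉ IrrE M (fun t : B.C W => B.b W t) →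
        ∑ i ∈ Finset.range ℓ, m i = ℓ * m 0) ∧
      (ψ ∈ IrrE M (fun t : B.C W => B.b W t) →
        (Nat.card (B.C W) * (B.D ⊤ * ∑ i ∈ Finset.range ℓ, (m i : ℂ) * ζ ^ i) /
          (Nat.card (B.C ⊤) * ψ 1) : ℂ) ∈ RM M ∧
        rr M (Nat.card (B.C W) * (B.D ⊤ * ∑ i ∈ Finset.range ℓ, (m i : ℂ) * ζ ^ i) /
          (Nat.card (B.C ⊤) * ψ 1) : ℂ) = ((Nat.card (St E₀ W) : ℕ) : FF M) ∧
        ∃ x' y' : ℕ, ¬ ℓ ∣ x' ∧ ¬ ℓ ∣ y' ∧ (y' : ℂ) * Nat.card (B.C W) = ℓ ^ 2 * ψ 1 * x') := by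
  classical
  obtain ⟨hFq', B', hB', he, hg, hi, hb, hC, hcard, -⟩ :=
    rda ℓ M hM h2 V₀ G E₀ hFq B hB.toSb W
  have htop : W ⊔ Subgroup.zpowers x = ⊤ := SO.H33.sup_top hFq.cd hW hx
  obtain ⟨hCu, hLc, hval⟩ := hlnk ℓ M hM V₀ (St E₀ W) (B.C W) B' hB' x
  have he' : B'.e = fun t : B.C W => B.b W t := funext he
  obtain ⟨u, hu⟩ : ∃ u, u = B'.i x := ⟨_, rfl⟩
  obtain ⟨β, hβd⟩ : ∃ β, β = B'.b (Subgroup.zpowers x) := ⟨_, rfl⟩
  rw [← hu, ← hβd] at hLc hval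
  rw [← hu] at hCu
  have hβ : ∀ t : B.C W, β t = B.b ⊤ t := by
    intro t
    rw [hβd, hb, htop]
  have hmem : ∀ t : B.C W, t ∈ Cu u ↔ (t : G) ∈ B.C ⊤ := by
    intro t
    rw [hCu, hC, htop]
  have hTW : B.C ⊤ ≤ B.C W := cnd_C_anti B le_top
  let φ : Cu u ≃* B.C ⊤ :=
    { toFun := fun t => ⟨((t : B.C W) : G), (hmem t).1 t.2⟩
      invFun := fun t => ⟨⟨(t : G), hTW t.2⟩, (hmem ⟨(t : G), hTW t.2⟩).2 t.2⟩
      left_inv := fun _ => rfl
      right_inv := fun _ => rfl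
      map_mul' := fun _ _ => rfl }
  have hDg : Dg M (fun t : Cu u => β t) (B.D ⊤) := by
    have h1 := T3.H85.dg_equiv φ.symm (hB.lb ⊤).blk.blk.1.1 (hB.dg ⊤ (cnd_rw_top hFq))
    have h3 : (fun y : Cu u => (fun t : B.C ⊤ => B.b ⊤ t) (φ.symm.symm y)) =
        fun t : Cu u => β t := by
      funext y
      exact (hβ y).symm
    rw [h3] at h1
    exact h1
  have hix : Ix (Cu u) β := hLc.blk.ix
  have huℓ : u ^ ℓ = 1 := by rw [hu, ← map_pow, hFq.ex, map_one]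
  have hu1 : u ≠ 1 := by
    intro h
    apply hx
    have h3 : x = 1 := hB'.inj (by rw [← hu, h, map_one])
    rw [h3]
    exact W.one_mem
  obtain ⟨m, hm⟩ := inr M (B.C W) u ℓ hℓ.out.pos huℓ β hix (B.D ⊤) hDg ζ hζ ψ hψ
  refine ⟨m, ?_, ?_, ?_⟩
  · have h1 : ∑ t : B.C W, bh B ⊤ t * ψ t = gv M (Cu u) 1 β ψ := by
      rw [← finsum_eq_sum_of_fintype, H75.sum_sub (Cu u) (fun t : B.C W => bh B ⊤ t * ψ t)
        (fun t ht => by rw [cnd_bh_off B ⊤ (fun h => ht ((hmem t).2 h)), zero_mul])]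
      unfold gv gbv
      refine finsum_congr fun t => ?_
      rw [one_mul]
      congr 1
      have h3 := T3.H62.eh_equiv (M := M) φ (b := fun t : Cu u => β t) hix.idem.1 t
      have h4 : (fun y : B.C ⊤ => (fun t : Cu u => β t) (φ.symm y)) =
          fun y : B.C ⊤ => B.b ⊤ y := by
        funext y
        exact hβ _
      rw [h4] at h3
      rw [← h3]
      exact cnd_bh_mem B ⊤ (φ t)
    have h3 := hm 0
    rw [pow_zero] at h3
    rw [h1, h3]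
    congr 1
    refine Finset.sum_congr rfl fun i _ => ?_
    rw [mul_zero, pow_zero, mul_one]
  · intro hψb
    have hc0 : (B.D ⊤ : ℂ) ≠ 0 := Nat.cast_ne_zero.2 hDg.1.ne'
    have hz : ∀ j : ℕ, ¬ ℓ ∣ j → gv M (Cu u) (u ^ j) β ψ = 0 := by
      intro j hj
      have hCj : Cu (u ^ j) = Cu u := cnd_cu_pow huℓ hj
      have huj : u ^ j ≠ 1 := by
        intro h
        apply hu1
        have h3 : orderOf u ∣ ℓ := orderOf_dvd_of_pow_eq_one huℓ
        have h4 : orderOf u ∣ j := orderOf_dvd_of_pow_eq_one h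
        have h5 : orderOf u ∣ Nat.gcd ℓ j := Nat.dvd_gcd h3 h4
        rw [((Nat.Prime.coprime_iff_not_dvd hℓ.out).2 hj)] at h5
        exact orderOf_eq_one_iff.1 (Nat.dvd_one.1 h5)
      have hel : El ℓ (u ^ j) :=
        ⟨1, by rw [pow_one, ← pow_mul, mul_comm, pow_mul, huℓ, one_pow]⟩
      have hk : ∀ X : Subgroup (B.C W), X = Cu u → IsIdem (fun t : X => β t) ∧
          mulF (fun t : X => B'.e t) (fun t : X => β t) = (fun t : X => β t) ∧
          gv M X (u ^ j) β ψ = gv M (Cu u) (u ^ j) β ψ := by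
        rintro _ rfl
        exact ⟨hix.idem, hLc.und, rfl⟩
      obtain ⟨k1, k2, k3⟩ := hk _ hCj
      have h3 := (smg ℓ M hM (B.C W) (u ^ j) 1 huj hel (Subgroup.one_mem _) K9.H25.reg_one
        (fun t : Cu (u ^ j) => β t) k1 B'.e hB'.ld.blk.1).1 k2 ψ hψ (by
          rw [he']
          exact hψb)
      rw [mul_one] at h3
      rw [← k3]
      exact h3
    exact SO.H33.sum_of_zero hζ m (fun j hj => by
      have h4 := hm j
      rw [hz j hj] at h4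
      exact (mul_eq_zero.1 h4.symm).resolve_left hc0)
  · intro hψb
    have hψb' : ψ ∈ IrrE M B'.e := by
      rw [he']
      exact hψb
    have hst : ∀ σ ∈ St E₀ W, σ x = x → σ = 1 := by
      intro σ hσ h1
      apply MulEquiv.ext
      intro v
      obtain ⟨k, w, hw, rfl⟩ := SO.H33.decomp hFq.ex hFq.cd hW hx v
      rw [map_mul, map_pow, h1, hσ.2 w hw]
      rfl
    have hx1 : x ≠ 1 := by
      intro h
      apply hx
      rw [h]
      exact W.one_mem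
    have hEs : Es (St E₀ W) x = ⊥ := by
      rw [eq_bot_iff]
      intro σ hσ
      exact Subgroup.mem_bot.2 (hst σ hσ.1 hσ.2)
    have hnE : nE (St E₀ W) x = Nat.card (St E₀ W) := by
      unfold nE
      rw [hEs, Subgroup.card_bot, Nat.div_one]
    obtain ⟨o1, o2⟩ := homr ℓ M hM V₀ (St E₀ W) (B.C W) B' hB' x ψ hψb'
    have h1 := hm 1
    simp only [pow_one, mul_one] at h1
    have hcd : (Nat.card (B'.C (Subgroup.zpowers x)) : ℂ) = Nat.card (B.C ⊤) := by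
      rw [hcard, htop]
    rw [hval ψ hψ, h1, hcd] at o1 o2
    rw [hnE] at o2
    exact ⟨o1, o2, htz ℓ M hM V₀ hFq.ex hFq.cd (St E₀ W) (B.C W) B' hB' x ⟨hx1, hst⟩ ψ hψb'⟩

end key

/-- CND -/
theorem cnd (prj : PrjStmt) (dgd : DgdStmt) (rda : RdaStmt) (homr : HOmrStmt) (htz : HTzStmt)
    (hlnk : HLnkStmt) (inr : InrStmt) (smg : SmgStmt) : CndStmt := by
  classical
  intro ℓ hℓ M _ hM h2 V₀ G _ _ _ _ E₀ hFr B hB c hc f s hs
  have hFG := Fintype.ofFinite G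
  have hp : ℓ.Prime := Fact.out
  have htop : Rw E₀ (⊤ : Subgroup V₀) := cnd_rw_top hFr
  have hFT : Fintype (B.C ⊤) := Fintype.ofFinite _
  have hcT : (Nat.card (B.C ⊤) : ℂ) ≠ 0 := by exact_mod_cast Nat.card_pos.ne'
  have hkd : ¬ ℓ ∣ kE E₀ c := by
    intro h
    apply hFr.cp
    refine h.trans ?_
    exact Subgroup.card_dvd_of_le (fun σ hσ => hσ.1)
  have hk0 : (kE E₀ c : ℂ) ≠ 0 := by
    intro h
    apply hkd
    have h1 : kE E₀ c = 0 := by exact_mod_cast h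
    rw [h1]
    exact dvd_zero _
  have hkR : ((kE E₀ c : ℕ) : ℂ)⁻¹ ∈ RM M := inv_nat_RM hp hM hkd
  cases f with
  | true =>
    have hfr : frm c true = (⊤ : Subgroup V₀) := rfl
    rw [hfr] at hs ⊢
    have hw : wtD E₀ B c true s = ((kE E₀ c : ℂ) * Nat.card (B.C ⊤))⁻¹ * bh B ⊤ s := by
      unfold wtD
      rw [if_pos rfl]
    have hre : (Nat.card (⊤ : Subgroup V₀) : ℂ) * (Nat.card (B.C ⊤) * wtD E₀ B c true s) /
        Nat.card (B.C ⊤ ⊓ Cu s : Subgroup G) = ((kE E₀ c : ℕ) : ℂ)⁻¹ *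
          (((ℓ ^ 2 : ℕ) : ℂ) * bh B ⊤ s / Nat.card (B.C ⊤ ⊓ Cu s : Subgroup G)) := by
      rw [hw, Subgroup.card_top, hFr.cd]
      have hcS : (Nat.card (B.C ⊤ ⊓ Cu s : Subgroup G) : ℂ) ≠ 0 := by
        exact_mod_cast Nat.card_pos.ne'
      field_simp
    rw [hre, ← cnd_card_cu (B.C ⊤) s hs]
    refine (RM M).mul_mem hkR ?_
    have key := prj ℓ M hM (B.C ⊤) (fun t => ((ℓ ^ 2 : ℕ) : ℂ) * bh B ⊤ t) ?_ ?_ ?_ ⟨s, hs⟩
    · exact key
    · intro x y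
      change ((ℓ ^ 2 : ℕ) : ℂ) * bh B ⊤ ((y * x * y⁻¹ : B.C ⊤) : G) = _
      rw [cnd_bh_cl]
    · intro x hx
      change ((ℓ ^ 2 : ℕ) : ℂ) * bh B ⊤ x = 0
      rw [cnd_bh_sing hM hB.toSb ⊤, mul_zero]
      intro h1
      apply hx
      unfold Reg at h1 ⊢
      rwa [← Subgroup.orderOf_coe]
    · intro χ hχ
      rw [finsum_eq_sum_of_fintype]
      have h3 : ∑ t : B.C ⊤, ((ℓ ^ 2 : ℕ) : ℂ) * bh B ⊤ t * χ t⁻¹ = ((ℓ ^ 2 : ℕ) : ℂ) *
          if (fun t => χ t⁻¹) ∈ IrrE M (fun t : B.C ⊤ => B.b ⊤ t) then (fun t => χ t⁻¹) 1 else 0 := by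
        rw [← cnd_bh_chv B ⊤ (cnd_irr_inv hχ), Finset.mul_sum]
        exact Finset.sum_congr rfl fun t _ => by ring
      rw [h3]
      by_cases h4 : (fun t => χ t⁻¹) ∈ IrrE M (fun t : B.C ⊤ => B.b ⊤ t)
      · have h7 : (fun t : B.C ⊤ => χ t⁻¹) 1 = (B.D ⊤ : ℂ) := (hB.dg ⊤ htop).2 _ h4
        rw [if_pos h4, h7]
        have h5 := (dgd ℓ M hM V₀ G E₀ hFr B hB ⊤ htop).1
        have h6 : (Nat.card (B.C ⊤) : ℂ)⁻¹ * (((ℓ ^ 2 : ℕ) : ℂ) * (B.D ⊤ : ℂ)) =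
            (ℓ ^ 2 * B.D ⊤ / Nat.card (B.C ⊤) : ℂ) := by
          push_cast
          field_simp
        rw [h6]
        exact h5
      · rw [if_neg h4, mul_zero, mul_zero]
        exact (RM M).zero_mem
  | false =>
    obtain ⟨W, hW⟩ : ∃ W, W = Subgroup.zpowers c := ⟨_, rfl⟩
    have hfr : frm c false = W := by rw [hW]; rfl
    rw [hfr] at hs ⊢
    have hWb : W ≠ ⊥ := by
      rw [hW, Ne, Subgroup.zpowers_eq_bot]
      exact hc
    have hWc : Nat.card W = ℓ := by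
      rw [hW, Nat.card_zpowers]
      exact orderOf_eq_prime (hFr.ex c) hc
    have hSt : Nat.card (St E₀ W) = kE E₀ c := by
      rw [hW, cnd_st]
      rfl
    obtain ⟨x, hx⟩ : ∃ x : V₀, x ∉ W := by
      by_contra hcon
      push Not at hcon
      have h1 : W = ⊤ := by
        rw [eq_top_iff]
        intro v _
        exact hcon v
      rw [h1, Subgroup.card_top, hFr.cd] at hWc
      have h3 := hp.two_le
      nlinarith
    have hFW : Fintype (B.C W) := Fintype.ofFinite _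
    have hcW : (Nat.card (B.C W) : ℂ) ≠ 0 := by exact_mod_cast Nat.card_pos.ne'
    have hTW : B.C ⊤ ≤ B.C W := cnd_C_anti B le_top
    have hw : wtD E₀ B c false s = (Nat.card (B.C W) : ℂ)⁻¹ * (bh B W s -
        ((kE E₀ c : ℂ) * Nat.card (B.C ⊤))⁻¹ * ∑ᶠ z : B.C W, bh B ⊤ ((z : G)⁻¹ * s * z)) := by
      unfold wtD
      rw [if_neg (by simp), hW]
    rw [hw, ← mul_assoc (Nat.card (B.C W) : ℂ), mul_inv_cancel₀ hcW, one_mul, hWc,
      ← cnd_card_cu (B.C W) s hs]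
    have key := prj ℓ M hM (B.C W) (fun t => (ℓ : ℂ) * (bh B W t -
      ((kE E₀ c : ℂ) * Nat.card (B.C ⊤))⁻¹ * ∑ᶠ z : B.C W, bh B ⊤ ((z : G)⁻¹ * t * z)))
      ?_ ?_ ?_ ⟨s, hs⟩
    · exact key
    · intro x y
      change (ℓ : ℂ) * (bh B W ((y * x * y⁻¹ : B.C W) : G) -
        ((kE E₀ c : ℂ) * Nat.card (B.C ⊤))⁻¹ *
        ∑ᶠ z : B.C W, bh B ⊤ ((z : G)⁻¹ * ((y * x * y⁻¹ : B.C W) : G) * z)) =
        (ℓ : ℂ) * (bh B W x - ((kE E₀ c : ℂ) * Nat.card (B.C ⊤))⁻¹ *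
        ∑ᶠ z : B.C W, bh B ⊤ ((z : G)⁻¹ * x * z))
      rw [cnd_bh_cl]
      congr 3
      rw [finsum_eq_sum_of_fintype, finsum_eq_sum_of_fintype,
        ← Equiv.sum_comp (Equiv.mulLeft y)
          (fun z : B.C W => bh B ⊤ ((z : G)⁻¹ * ((y * x * y⁻¹ : B.C W) : G) * z))]
      refine Finset.sum_congr rfl fun z _ => ?_
      congr 1
      rw [Equiv.coe_mulLeft]
      push_cast
      group
    · intro x hx
      have hx' : ¬ Reg ℓ (x : G) := by
        intro h1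
        apply hx
        unfold Reg at h1 ⊢
        rwa [← Subgroup.orderOf_coe]
      change (ℓ : ℂ) * (bh B W x - ((kE E₀ c : ℂ) * Nat.card (B.C ⊤))⁻¹ *
        ∑ᶠ z : B.C W, bh B ⊤ ((z : G)⁻¹ * x * z)) = 0
      have h3 : ∀ z : B.C W, bh B ⊤ ((z : G)⁻¹ * x * z) = 0 := by
        intro z
        apply cnd_bh_sing hM hB.toSb
        intro h4
        apply hx'
        unfold Reg at h4 ⊢
        have h5 : orderOf ((z : G)⁻¹ * x * z) = orderOf (x : G) := by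
          have h6 := MulEquiv.orderOf_eq (MulAut.conj ((z : G)⁻¹)) (x : G)
          rwa [MulAut.conj_apply, inv_inv] at h6
        rwa [h5] at h4
      rw [cnd_bh_sing hM hB.toSb W hx']
      simp only [h3]
      rw [finsum_zero, mul_zero, sub_zero, mul_zero]
    · intro χ hχ
      obtain ⟨ψ, hψdef⟩ : ∃ ψ : B.C W → ℂ, ψ = fun h => χ h⁻¹ := ⟨_, rfl⟩
      have hψ : ψ ∈ Irr (B.C W) := by rw [hψdef]; exact cnd_irr_inv hχ
      obtain ⟨S2, hS2⟩ : ∃ S2 : ℂ, S2 = ∑ t : B.C W, bh B ⊤ t * ψ t := ⟨_, rfl⟩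
      have hsum : (Nat.card (B.C W) : ℂ)⁻¹ * ∑ᶠ h : B.C W, (fun t : B.C W => (ℓ : ℂ) *
          (bh B W t - ((kE E₀ c : ℂ) * Nat.card (B.C ⊤))⁻¹ *
            ∑ᶠ z : B.C W, bh B ⊤ ((z : G)⁻¹ * t * z))) h *
            χ h⁻¹ = (Nat.card (B.C W) : ℂ)⁻¹ * ((ℓ : ℂ) *
          ((if ψ ∈ IrrE M (fun t : B.C W => B.b W t) then ψ 1 else 0) -
            ((kE E₀ c : ℂ) * Nat.card (B.C ⊤))⁻¹ * (Nat.card (B.C W) * S2))) := by
        congr 1
        rw [finsum_eq_sum_of_fintype, ← cnd_bh_chv B W hψ]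
        have e1 : ∀ h : B.C W, (fun t : B.C W => (ℓ : ℂ) *
          (bh B W t - ((kE E₀ c : ℂ) * Nat.card (B.C ⊤))⁻¹ *
            ∑ᶠ z : B.C W, bh B ⊤ ((z : G)⁻¹ * t * z))) h *
            χ h⁻¹ = (ℓ : ℂ) * (bh B W h * ψ h) -
            (ℓ : ℂ) * (((kE E₀ c : ℂ) * Nat.card (B.C ⊤))⁻¹ *
              ∑ z : B.C W, bh B ⊤ ((z : G)⁻¹ * h * z) * ψ h) := by
          intro h
          rw [hψdef]
          change (ℓ : ℂ) * (bh B W h - ((kE E₀ c : ℂ) * Nat.card (B.C ⊤))⁻¹ *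
            ∑ᶠ z : B.C W, bh B ⊤ ((z : G)⁻¹ * h * z)) * χ h⁻¹ =
            (ℓ : ℂ) * (bh B W h * χ h⁻¹) - (ℓ : ℂ) * (((kE E₀ c : ℂ) * Nat.card (B.C ⊤))⁻¹ *
              ∑ z : B.C W, bh B ⊤ ((z : G)⁻¹ * h * z) * χ h⁻¹)
          rw [finsum_eq_sum_of_fintype, ← Finset.sum_mul]
          ring
        rw [Finset.sum_congr rfl fun h _ => e1 h, Finset.sum_sub_distrib, ← Finset.mul_sum,
          ← Finset.mul_sum, ← Finset.mul_sum, Finset.sum_comm, mul_sub]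
        congr 3
        rw [hS2]
        have e2 : ∀ z : B.C W, ∑ h : B.C W, bh B ⊤ ((z : G)⁻¹ * h * z) * ψ h =
            ∑ t : B.C W, bh B ⊤ t * ψ t := by
          intro z
          rw [← Equiv.sum_comp (MulAut.conj z).toEquiv
            (fun h : B.C W => bh B ⊤ ((z : G)⁻¹ * h * z) * ψ h)]
          refine Finset.sum_congr rfl fun h _ => ?_
          have e3 : (MulAut.conj z).toEquiv h = z * h * z⁻¹ := rfl
          rw [e3, irr_conj hψ]
          congr 2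
          push_cast
          group
        rw [Finset.sum_congr rfl fun z _ => e2 z, Finset.sum_const, Finset.card_univ,
          nsmul_eq_mul, Nat.card_eq_fintype_card]
      rw [hsum]
      obtain ⟨ζ, hζ⟩ : ∃ ζ : ℂ, IsPrimitiveRoot ζ ℓ :=
        ⟨_, Complex.isPrimitiveRoot_exp _ hp.ne_zero⟩
      obtain ⟨m, m1, m2, m3⟩ := cnd_key hM h2 rda homr htz hlnk inr smg hFr hB hWb hx hψ hζ
      rw [← hS2] at m1
      obtain ⟨N, hN⟩ : ∃ N : ℤ, N = ∑ i ∈ Finset.range ℓ, m i := ⟨_, rfl⟩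
      have hNc : ∑ i ∈ Finset.range ℓ, (m i : ℂ) = (N : ℂ) := by
        rw [hN]
        push_cast
        rfl
      rw [hNc] at m1
      have hdT := dgd ℓ M hM V₀ G E₀ hFr B hB ⊤ htop
      by_cases hin : ψ ∈ IrrE M (fun t : B.C W => B.b W t)
      · rw [if_pos hin, m1]
        obtain ⟨r1, r2, x', y', hx', hy', hxy⟩ := m3 hin
        obtain ⟨n, hn, hn1⟩ := irr_one hψ
        have hn0 : (n : ℂ) ≠ 0 := Nat.cast_ne_zero.2 hn.ne'
        have hℓ0 : (ℓ : ℂ) ≠ 0 := Nat.cast_ne_zero.2 hp.ne_zero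
        have hx0 : (x' : ℂ) ≠ 0 := by
          refine Nat.cast_ne_zero.2 ?_
          rintro rfl
          exact hx' (dvd_zero _)
        have hy0 : (y' : ℂ) ≠ 0 := by
          refine Nat.cast_ne_zero.2 ?_
          rintro rfl
          exact hy' (dvd_zero _)
        have hD0 : (B.D ⊤ : ℂ) ≠ 0 := Nat.cast_ne_zero.2 (hB.dg ⊤ htop).1.ne'
        rw [hn1] at r1 r2 hxy
        rw [hn1]
        obtain ⟨v1, v2⟩ := T3.H41.rr_val hM (ζ := ζ) (k := 1) (by rw [pow_one]; exact hζ.pow_eq_one)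
          m (Finset.range ℓ)
        obtain ⟨V, hV⟩ : ∃ V : ℂ, V = ∑ i ∈ Finset.range ℓ, (m i : ℂ) * ζ ^ i := ⟨_, rfl⟩
        rw [← hV] at v1 v2 r1 r2
        rw [← hN] at v2
        obtain ⟨R, hR⟩ : ∃ R : ℂ, R = Nat.card (B.C W) * B.D ⊤ / (Nat.card (B.C ⊤) * n) :=
          ⟨_, rfl⟩
        have hR1 : R = (x' : ℂ) * ((y' : ℕ) : ℂ)⁻¹ * (ℓ ^ 2 * B.D ⊤ / Nat.card (B.C ⊤) : ℂ) := by
          have h3 : (Nat.card (B.C W) : ℂ) = ℓ ^ 2 * n * x' / y' := by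
            field_simp
            linear_combination hxy
          rw [hR, h3]
          field_simp
        have hRm : R ∈ RM M := by
          rw [hR1]
          exact (RM M).mul_mem ((RM M).mul_mem (natCast_mem _ _) (inv_nat_RM hp hM hy')) hdT.1
        have hA : (Nat.card (B.C W) * (B.D ⊤ * V) / (Nat.card (B.C ⊤) * n) : ℂ) = R * V := by
          rw [hR]
          ring
        rw [hA] at r1 r2
        rw [rr_mul hRm v1, v2, ← (rr_int N).2, ← rr_mul hRm (rr_int N).1, hSt] at r2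
        have hkr : rr M ((kE E₀ c : ℕ) : ℂ) = ((kE E₀ c : ℕ) : FF M) := (rr_nat _).2
        have hkr0 : rr M ((kE E₀ c : ℕ) : ℂ) ≠ 0 := by
          intro h3
          apply hkd
          have h4 := (dvd_of_rr (M := M) hp hM (n := (kE E₀ c : ℤ))).1 (by exact_mod_cast h3)
          exact_mod_cast h4
        obtain ⟨q, hq⟩ : ∃ q : ℚ, q = Nat.card (B.C W) * B.D ⊤ * N /
            (Nat.card (B.C ⊤) * n * kE E₀ c) := ⟨_, rfl⟩
        have hqc : (q : ℂ) = R * N * ((kE E₀ c : ℕ) : ℂ)⁻¹ := by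
          rw [hq, hR]
          push_cast
          field_simp
        have hq1 : (q : ℂ) ∈ RM M := by
          rw [hqc]
          exact (RM M).mul_mem ((RM M).mul_mem hRm (rr_int N).1) hkR
        have hq2 : rr M (q : ℂ) = 1 := by
          rw [hqc, rr_mul ((RM M).mul_mem hRm (rr_int N).1) hkR, r2,
            rr_inv (rr_nat _).1 hkr0, ← hkr, mul_inv_cancel₀ hkr0]
        obtain ⟨q', hq', hqq⟩ := cnd_rat_one hM hq1 hq2
        have hqq' : R * N * ((kE E₀ c : ℕ) : ℂ)⁻¹ = 1 + ℓ * (q' : ℂ) := by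
          rw [← hqc, hqq]
          push_cast
          ring
        have hfin : (Nat.card (B.C W) : ℂ)⁻¹ * ((ℓ : ℂ) * ((n : ℂ) -
            ((kE E₀ c : ℂ) * Nat.card (B.C ⊤))⁻¹ * (Nat.card (B.C W) * (B.D ⊤ * N)))) =
            -((y' : ℂ) * ((x' : ℕ) : ℂ)⁻¹ * (q' : ℂ)) := by
          have h3 : ((kE E₀ c : ℂ) * Nat.card (B.C ⊤))⁻¹ * (Nat.card (B.C W) * (B.D ⊤ * N)) =
              n * (1 + ℓ * (q' : ℂ)) := by
            rw [← hqq', hR]
            field_simp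
          rw [h3]
          have h4 : (Nat.card (B.C W) : ℂ)⁻¹ = y' / (ℓ ^ 2 * n * x') := by
            rw [eq_div_iff (by positivity), ← hxy]
            field_simp
          rw [h4]
          field_simp
          ring
        rw [hfin]
        exact (RM M).neg_mem ((RM M).mul_mem ((RM M).mul_mem (natCast_mem _ _)
          (inv_nat_RM hp hM hx')) (cnd_Rl_RM hM hq'))
      · rw [if_neg hin, m1]
        have h3 := m2 hin
        rw [← hN] at h3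
        rw [h3]
        have h6 : (Nat.card (B.C W) : ℂ)⁻¹ * ((ℓ : ℂ) * (0 -
            ((kE E₀ c : ℂ) * Nat.card (B.C ⊤))⁻¹ * (Nat.card (B.C W) *
              (B.D ⊤ * ((ℓ * m 0 : ℤ) : ℂ))))) =
            (ℓ ^ 2 * B.D ⊤ / Nat.card (B.C ⊤) : ℂ) * (((kE E₀ c : ℕ) : ℂ)⁻¹ * (-(m 0 : ℂ))) := by
          push_cast
          field_simp
          ring
        rw [h6]
        exact (RM M).mul_mem hdT.1 ((RM M).mul_mem hkR ((RM M).neg_mem (rr_int _).1))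

end Pool.Agent.PP.SD.H49
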