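import Pool.Agent.ASD.Stmts8
import Pool.Agent.Helper32_AT6.IPS
import Pool.Agent.Helper69_AT6.SVV
import Pool.Agent.Helper77_KF.Trc

/-!
# Squad ASD, row PML: the sum of the diagonal entries over all characters
-/

open scoped BigOperators

set_option autoImplicit false

noncomputable section

namespace Pool.Agent.PP.SD.H49

open Pool.Agent.Helper51_AWC Pool.Agent.Helper79_WRA Pool.Agent.PP Pool.Agent.PP.KF
open Pool.Agent.PP.K9 Pool.Agent.PP.K9.H97 Pool.Agent.PP.H75 Pool.Agent.PP.T3 Pool.Agent.PP.SO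

attribute [local instance] Ideal.Quotient.field

/-- Parseval -/
theorem pars {C : Type} [Group C] [Fintype C] {S : Finset (C → ℂ)} (hS : ∀ ψ ∈ S, ψ ∈ Irr C)
    {q : C → ℂ} (hq : q ∈ Submodule.span ℂ (S : Set (C → ℂ))) :
    ∑ c, q c * starRingEnd ℂ (q c) = (Fintype.card C : ℂ)⁻¹ *
      ∑ κ ∈ S, (∑ c, q c * starRingEnd ℂ (κ c)) * starRingEnd ℂ (∑ c, q c * starRingEnd ℂ (κ c))
      := by
  have h1 := K9.H25.pj_span hS hq
  have h2 : ∀ c, q c = (Fintype.card C : ℂ)⁻¹ *
      ∑ κ ∈ S, (∑ x, q x * starRingEnd ℂ (κ x)) * κ c := by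
    intro c
    conv_lhs => rw [← h1]
    rw [K9.H25.pj_apply]
    congr 1
    have h3 : ∀ x, q x * ∑ ψ ∈ S, ψ x⁻¹ * ψ c = ∑ ψ ∈ S, (q x * starRingEnd ℂ (ψ x)) * ψ c := by
      intro x
      rw [Finset.mul_sum]
      refine Finset.sum_congr rfl fun ψ hψ => ?_
      rw [H94.irr_star (hS ψ hψ)]
      ring
    rw [Finset.sum_congr rfl fun x _ => h3 x, Finset.sum_comm]
    refine Finset.sum_congr rfl fun ψ _ => ?_
    rw [Finset.sum_mul]
  have h4 : ∀ c, q c * starRingEnd ℂ (q c) = (Fintype.card C : ℂ)⁻¹ *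
      ∑ κ ∈ S, (∑ x, q x * starRingEnd ℂ (κ x)) * (κ c * starRingEnd ℂ (q c)) := by
    intro c
    conv_lhs => rw [h2 c]
    rw [mul_assoc, Finset.sum_mul]
    congr 1
    refine Finset.sum_congr rfl fun κ _ => ?_
    rw [mul_assoc, ← h2 c]
  rw [Finset.sum_congr rfl fun c _ => h4 c, ← Finset.mul_sum, Finset.sum_comm]
  congr 1
  refine Finset.sum_congr rfl fun κ _ => ?_
  rw [← Finset.mul_sum, map_sum]
  congr 1
  refine Finset.sum_congr rfl fun c _ => ?_
  rw [map_mul, Complex.conj_conj, mul_comm]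

/-- PML -/
theorem pml (rot : K9.RotStmt) (lrk : T3.LrkStmt) : PmlStmt := by
  intro ℓ hℓ M _ hM G _ _ v hv b hb
  classical
  have := Fintype.ofFinite G
  have := Fintype.ofFinite (Cu v)
  have := Fintype.ofFinite (Irr G)
  obtain ⟨C, hC⟩ : ∃ C : Subgroup G, C = Cu v := ⟨_, rfl⟩
  have hCf : Fintype C := Fintype.ofFinite C
  obtain ⟨b', hb'⟩ : ∃ b' : C → FF M, b' = fun t : C => b t := ⟨_, rfl⟩
  have hid : IsIdem b' := by
    subst hC
    rw [hb']
    exact hb.idem
  obtain ⟨z, hz⟩ : ∃ z : C, (z : G) = v :=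
    ⟨⟨v, by rw [hC]; exact Subgroup.mem_centralizer_singleton_iff.2 rfl⟩, rfl⟩
  have hcv : ∀ c : C, (c : G) * v = v * c := by
    intro c
    have h1 : (c : G) ∈ Cu v := by
      rw [← hC]
      exact c.2
    exact Subgroup.mem_centralizer_singleton_iff.1 h1
  have hzc : ∀ c : C, z * c = c * z := by
    intro c
    apply Subtype.ext
    change (z : G) * c = c * z
    rw [hz]
    exact (hcv c).symm
  have hgv : ∀ (c : C) (φ : G → ℂ), gv M C (v * c) b φ = ∑ t : C, eh M b' t * φ (v * c * t) := by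
    intro c φ
    unfold gv gbv
    rw [finsum_eq_sum_of_fintype, hb']
  have hfin := K9.H25.irrE_finite M b'
  obtain ⟨S, hSdef⟩ : ∃ S, S = hfin.toFinset := ⟨_, rfl⟩
  have hSc : (S : Set (C → ℂ)) = IrrE M b' := by rw [hSdef, Set.Finite.coe_toFinset]
  have hSm : ∀ ψ ∈ S, ψ ∈ IrrE M b' := fun ψ hψ => by
    rw [← hSc]
    exact hψ
  have hS : ∀ ψ ∈ S, ψ ∈ Irr C := fun ψ hψ => (hSm ψ hψ).1
  -- the functions `q χ`
  obtain ⟨q, hq⟩ : ∃ q : (G → ℂ) → C → ℂ, q = fun (χ : G → ℂ) (c : C) =>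
      if Reg ℓ c then gv M C (v * c) b χ else 0 := ⟨_, rfl⟩
  have hqs : ∀ χ ∈ Irr G, q χ ∈ Submodule.span ℂ (S : Set (C → ℂ)) := by
    intro χ hχ
    have hsp : (fun c : C => χ c) ∈ Submodule.span ℂ (Irr C) := by
      apply T3.H98.span_irr
      intro x y
      exact irr_conj hχ _ _
    have h := T3.H98.mem_span_blk (M := M) b' hzc hsp
    have e : (fun c : C => ∑ t, eh M b' t * (fun c : C => χ c) (z * c * t)) =
        (fun c : C => gv M C (v * c) b χ) := by
      funext c
      rw [hgv]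
      refine Finset.sum_congr rfl fun t _ => ?_
      change eh M b' t * χ ((z * c * t : C) : G) = _
      rw [Subgroup.coe_mul, Subgroup.coe_mul, hz]
    rw [e] at h
    have h2 := (rot ℓ M hM C b' hid).1 _ h
    rw [hSc, hq]
    exact h2
  have hPm : ∀ χ : G → ℂ, T6.Pm M ℓ v b χ χ = (Fintype.card C : ℂ)⁻¹ *
      ∑ c : C, q χ c * starRingEnd ℂ (q χ c) := by
    intro χ
    unfold T6.Pm
    rw [← hC, T6.H32.sumC ℓ C (fun s => gv M C (v * s) b χ * starRingEnd ℂ (gv M C (v * s) b χ)),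
      Nat.card_eq_fintype_card]
    congr 1
    refine Finset.sum_congr rfl fun c _ => ?_
    rw [hq]
    by_cases hc : Reg ℓ c
    · simp only [if_pos hc]
    · simp only [if_neg hc, zero_mul]
  -- the coefficients
  have hA : ∀ κ ∈ S, ∀ χ : G → ℂ, ∑ c, q χ c * starRingEnd ℂ (κ c) =
      ∑ s : C, (if Reg ℓ s then starRingEnd ℂ (κ s) * χ (v * s) else 0) := by
    intro κ hκ χ
    have h1 := (rot ℓ M hM C b' hid).1 κ (Submodule.subset_span (hSm κ hκ))
    have h2 := T3.H98.proj_sum (M := M) b' h1 (fun c : C => χ (v * c))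
    have e1 : ∀ s : C, starRingEnd ℂ ((fun g : C => if Reg ℓ g then κ g else 0) s) *
        (fun c : C => χ (v * c)) s =
        (if Reg ℓ s then starRingEnd ℂ (κ s) * χ (v * s) else 0) := by
      intro s
      change starRingEnd ℂ (if Reg ℓ s then κ s else 0) * χ (v * s) = _
      split_ifs
      · rfl
      · rw [map_zero, zero_mul]
    have e2 : ∀ s : C, starRingEnd ℂ ((fun g : C => if Reg ℓ g then κ g else 0) s) *
        ∑ c : C, eh M b' c * (fun c : C => χ (v * c)) (s * c) =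
        q χ s * starRingEnd ℂ (κ s) := by
      intro s
      have e3 : ∑ c : C, eh M b' c * (fun c : C => χ (v * c)) (s * c) =
          gv M C (v * s) b χ := by
        rw [hgv]
        refine Finset.sum_congr rfl fun t _ => ?_
        change eh M b' t * χ (v * ((s * t : C) : G)) = _
        rw [Subgroup.coe_mul, mul_assoc]
      rw [e3, hq]
      change starRingEnd ℂ (if Reg ℓ s then κ s else 0) * _ =
        (if Reg ℓ s then gv M C (v * s) b χ else 0) * _
      split_ifs
      · rw [mul_comm]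
      · rw [map_zero, zero_mul, zero_mul]
    rw [Finset.sum_congr rfl fun s _ => e1 s, Finset.sum_congr rfl fun s _ => e2 s] at h2
    exact h2.symm
  -- the conjugating elements
  have hcj : ∀ κ ∈ S, ∀ s : C, Reg ℓ s → ∑ s' : C, (if Reg ℓ s' then κ s' else 0) *
      ∑ x : G, (if x⁻¹ * (v * s)⁻¹ * x = (v * s')⁻¹ then (1 : ℂ) else 0) =
        Fintype.card C * κ s := by
    intro κ hκ s hs
    have h1 : ∀ (s' : C) (x : G), Reg ℓ s' → x⁻¹ * (v * s)⁻¹ * x = (v * s')⁻¹ → x ∈ C := by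
      intro s' x hs' hx
      have h2 : x⁻¹ * (v * s) * x⁻¹⁻¹ = v * s' := by
        rw [inv_inv]
        have h3 := congrArg (fun g => g⁻¹) hx
        simp only [inv_inv] at h3
        rw [← h3]
        group
      have hLs : ∀ t : C, Reg ℓ t → T5.Lp ℓ (v * t) v := by
        intro t ht
        refine ⟨hv, ?_, ?_⟩
        · change v * (v * t) = v * t * v
          rw [mul_assoc, hcv]
        · rw [inv_mul_cancel_left]
          exact (T6.H32.reg_coe_iff t).2 ht
      have h4 := T6.H69.lp_conj x⁻¹ (hLs s hs)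
      rw [h2] at h4
      have h5 := T6.H69.lp_unique h4 (hLs s' hs')
      rw [hC]
      apply Subgroup.mem_centralizer_singleton_iff.2
      rw [inv_inv] at h5
      calc x * v = x * (x⁻¹ * v * x) := by rw [h5]
        _ = v * x := by group
    simp only [Finset.mul_sum]
    rw [Finset.sum_comm]
    have h6 : ∀ x : G, ∑ s' : C, (if Reg ℓ s' then κ s' else 0) *
        (if x⁻¹ * (v * s)⁻¹ * x = (v * s')⁻¹ then (1 : ℂ) else 0) =
        if x ∈ C then κ s else 0 := by
      intro x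
      by_cases hx : x ∈ C
      · rw [if_pos hx, Finset.sum_eq_single ((⟨x, hx⟩ : C)⁻¹ * s * ⟨x, hx⟩)]
        · have hr : Reg ℓ ((⟨x, hx⟩ : C)⁻¹ * s * ⟨x, hx⟩) := by
            have h7 := T6.H69.reg_conj (t := (⟨x, hx⟩ : C)⁻¹) hs
            rwa [inv_inv] at h7
          have hk : κ ((⟨x, hx⟩ : C)⁻¹ * s * ⟨x, hx⟩) = κ s := by
            have h7 := irr_conj (hS κ hκ) s (⟨x, hx⟩ : C)⁻¹
            rwa [inv_inv] at h7
          rw [if_pos hr, if_pos, mul_one, hk]
          have e1 : x * v = v * x := hcv ⟨x, hx⟩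
          have e2 : ((((⟨x, hx⟩ : C)⁻¹ * s * ⟨x, hx⟩ : C)) : G) = x⁻¹ * s * x := rfl
          have e3 : x⁻¹ * v = v * x⁻¹ := by
            calc x⁻¹ * v = x⁻¹ * (v * x) * x⁻¹ := by group
              _ = x⁻¹ * (x * v) * x⁻¹ := by rw [e1]
              _ = v * x⁻¹ := by group
          rw [e2]
          calc x⁻¹ * (v * s)⁻¹ * x = (x⁻¹ * v * s * x)⁻¹ := by group
            _ = (v * x⁻¹ * s * x)⁻¹ := by rw [e3]
            _ = (v * (x⁻¹ * s * x))⁻¹ := by group
        · intro s' _ hne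
          rw [if_neg (c := x⁻¹ * (v * s)⁻¹ * x = (v * s')⁻¹), mul_zero]
          intro h7
          apply hne
          apply Subtype.ext
          change (s' : G) = x⁻¹ * s * x
          have e1 : x * v = v * x := hcv ⟨x, hx⟩
          have e3 : x⁻¹ * v = v * x⁻¹ := by
            calc x⁻¹ * v = x⁻¹ * (v * x) * x⁻¹ := by group
              _ = x⁻¹ * (x * v) * x⁻¹ := by rw [e1]
              _ = v * x⁻¹ := by group
          have h8 := congrArg (fun g => g⁻¹) h7
          simp only [inv_inv] at h8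
          have h9 : v * (x⁻¹ * s * x) = v * s' := by
            rw [← h8]
            calc v * (x⁻¹ * s * x) = (v * x⁻¹) * s * x := by group
              _ = (x⁻¹ * v) * s * x := by rw [e3]
              _ = (x⁻¹ * (v * s)⁻¹ * x)⁻¹ := by group
          exact (mul_left_cancel h9).symm
        · intro h
          exact absurd (Finset.mem_univ _) h
      · rw [if_neg hx]
        apply Finset.sum_eq_zero
        intro s' _
        by_cases hs' : Reg ℓ s'
        · rw [if_neg (c := x⁻¹ * (v * s)⁻¹ * x = (v * s')⁻¹) (fun h => hx (h1 s' x hs' h)),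
            mul_zero]
        · rw [if_neg hs', zero_mul]
    rw [Finset.sum_congr rfl fun x _ => h6 x, ← Finset.sum_filter, Finset.sum_const,
      nsmul_eq_mul]
    congr 2
    rw [← Fintype.card_subtype]
  -- the sum over the characters
  have hsum : ∀ κ ∈ S, ∑ χ : Irr G, (∑ c, q χ c * starRingEnd ℂ (κ c)) *
      starRingEnd ℂ (∑ c, q χ c * starRingEnd ℂ (κ c)) =
        Fintype.card C * ∑ s : C, (if Reg ℓ s then κ s * starRingEnd ℂ (κ s) else 0) := by
    intro κ hκ
    have h1 : ∀ χ : Irr G, (∑ c, q χ c * starRingEnd ℂ (κ c)) *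
        starRingEnd ℂ (∑ c, q χ c * starRingEnd ℂ (κ c)) =
        ∑ s : C, ∑ s' : C, (if Reg ℓ s then starRingEnd ℂ (κ s) else 0) *
          (if Reg ℓ s' then κ s' else 0) * ((χ : G → ℂ) (v * s) * (χ : G → ℂ) (v * s')⁻¹) := by
      intro χ
      rw [hA κ hκ, map_sum, Finset.sum_mul_sum]
      refine Finset.sum_congr rfl fun s _ => Finset.sum_congr rfl fun s' _ => ?_
      rw [← H94.irr_star χ.2 (v * s')]
      by_cases hs : Reg ℓ s
      · by_cases hs' : Reg ℓ s'
        · rw [if_pos hs, if_pos hs, if_pos hs', if_pos hs', map_mul, Complex.conj_conj]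
          ring
        · rw [if_neg hs', if_neg hs', map_zero]
          ring
      · rw [if_neg hs, if_neg hs]
        ring
    rw [Finset.sum_congr rfl fun χ _ => h1 χ, Finset.sum_comm, Finset.mul_sum]
    refine Finset.sum_congr rfl fun s _ => ?_
    rw [Finset.sum_comm]
    have h2 : ∀ s' : C, ∑ χ : Irr G, (if Reg ℓ s then starRingEnd ℂ (κ s) else 0) *
          (if Reg ℓ s' then κ s' else 0) * ((χ : G → ℂ) (v * s) * (χ : G → ℂ) (v * s')⁻¹) =
        (if Reg ℓ s then starRingEnd ℂ (κ s) else 0) * ((if Reg ℓ s' then κ s' else 0) *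
          ∑ x : G, (if x⁻¹ * (v * s)⁻¹ * x = (v * s')⁻¹ then (1 : ℂ) else 0)) := by
      intro s'
      rw [← Finset.mul_sum, col_sum]
      ring
    rw [Finset.sum_congr rfl fun s' _ => h2 s', ← Finset.mul_sum]
    by_cases hs : Reg ℓ s
    · rw [if_pos hs, if_pos hs, hcj κ hκ s hs]
      ring
    · rw [if_neg hs, if_neg hs, zero_mul, mul_zero]
  have hcard : (Fintype.card C : ℂ) ≠ 0 := by exact_mod_cast Fintype.card_ne_zero
  have hln : (ln b' : ℂ) = (Fintype.card C : ℂ)⁻¹ *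
      ∑ κ ∈ S, ∑ s : C, (if Reg ℓ s then κ s * starRingEnd ℂ (κ s) else 0) := by
    rw [lrk ℓ M hM C b' hid, Nat.card_eq_fintype_card, finsum_eq_sum_of_fintype]
    congr 1
    rw [Finset.sum_comm]
    refine Finset.sum_congr rfl fun s _ => ?_
    rw [finsum_eq_if]
    by_cases hs : Reg ℓ s
    · rw [if_pos hs, finsum_mem_eq_finite_toFinset_sum _ hfin, ← hSdef]
      exact Finset.sum_congr rfl fun κ _ => by rw [if_pos hs]
    · rw [if_neg hs]
      symm
      apply Finset.sum_eq_zero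
      intro κ _
      rw [if_neg hs]
  have hgoal : (ln (fun t : Cu v => b t) : ℂ) = ln b' := by
    subst hC
    rw [hb']
  rw [hgoal, hln, ← finsum_set_coe_eq_finsum_mem (Irr G), finsum_eq_sum_of_fintype]
  have h1 : ∀ χ : Irr G, T6.Pm M ℓ v b χ χ = (Fintype.card C : ℂ)⁻¹ * ((Fintype.card C : ℂ)⁻¹ *
      ∑ κ ∈ S, (∑ c, q χ c * starRingEnd ℂ (κ c)) *
        starRingEnd ℂ (∑ c, q χ c * starRingEnd ℂ (κ c))) := by
    intro χ
    rw [hPm, pars hS (hqs χ χ.2)]
  rw [Finset.sum_congr rfl fun χ _ => h1 χ, ← Finset.mul_sum, ← Finset.mul_sum,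
    Finset.sum_comm, Finset.sum_congr rfl fun κ hκ => hsum κ hκ, ← Finset.mul_sum,
    inv_mul_cancel_left₀ hcard]

end Pool.Agent.PP.SD.H49
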