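import Pool.Agent.ASD.Stmts3
import Pool.Agent.ASD.Stmts5

/-!
# Squad ASD, row F2E: the part of `F₁₂` with `pL` off the axes
-/

open scoped BigOperators

set_option autoImplicit false

noncomputable section

namespace Pool.Agent.PP.SD.H49

open Pool.Agent.Helper51_AWC Pool.Agent.Helper79_WRA Pool.Agent.PP Pool.Agent.PP.KF
open Pool.Agent.PP.K9 Pool.Agent.PP.K9.H97 Pool.Agent.PP.H75 Pool.Agent.PP.T3 Pool.Agent.PP.SO

attribute [local instance] Ideal.Quotient.field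

section comb

open Classical in
theorem fin_mem {α K : Type} [Fintype α] [AddCommMonoid K] (S : Set α) (f : α → K) :
    ∑ᶠ x ∈ S, f x = ∑ x, if x ∈ S then f x else 0 := by
  rw [finsum_mem_def, finsum_eq_sum_of_fintype]
  exact Finset.sum_congr rfl fun x _ => by rw [Set.indicator_apply]

variable {V₀ : Type} [CommGroup V₀] {n : ℕ}

theorem pL_le_iff (L : Set (SO.SS n V₀)) (W : Subgroup V₀) :
    pL L ≤ W ↔ ∀ s ∈ L, s.2.2.1 ∈ W := by
  unfold pL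
  rw [Subgroup.closure_le]
  constructor
  · intro h s hs
    exact h ⟨s, hs, rfl⟩
  · rintro h _ ⟨s, hs, rfl⟩
    exact h s hs

theorem qL_le_iff (L : Set (SO.SS n V₀)) (W : Subgroup V₀) :
    qL L ≤ W ↔ ∀ s ∈ L, s.2.2.2 ∈ W := by
  unfold qL
  rw [Subgroup.closure_le]
  constructor
  · intro h s hs
    exact h ⟨s, hs, rfl⟩
  · rintro h _ ⟨s, hs, rfl⟩
    exact h s hs

theorem aL_le_iff (κ : V₀) (L : Set (SO.SS n V₀)) (W : Subgroup V₀) :
    aL κ L ≤ W ↔ ∀ s ∈ L, κ ^ (s.2.1 : ℕ) * s.2.2.1 ∈ W := by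
  unfold aL
  rw [Subgroup.closure_le]
  constructor
  · intro h s hs
    exact h ⟨s, hs, rfl⟩
  · rintro h _ ⟨s, hs, rfl⟩
    exact h s hs

theorem line_eq {ℓ : ℕ} [Fact ℓ.Prime] [Finite V₀] {x : V₀} (hx : x ^ ℓ = 1) {W : Subgroup V₀}
    (hW : W ≤ Subgroup.zpowers x) (hb : W ≠ ⊥) : W = Subgroup.zpowers x := by
  have h1 : Nat.card (Subgroup.zpowers x) ∣ ℓ := by
    rw [Nat.card_zpowers]
    exact orderOf_dvd_of_pow_eq_one hx
  have h2 : Nat.card W ∣ ℓ := (Subgroup.card_dvd_of_le hW).trans h1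
  rcases (Nat.dvd_prime Fact.out).1 h2 with h | h
  · exact absurd (Subgroup.card_eq_one.1 h) hb
  · apply Subgroup.eq_of_le_of_card_ge hW
    rw [h]
    exact Nat.le_of_dvd (Fact.out : ℓ.Prime).pos h1

variable {ℓ : ℕ} [Fact ℓ.Prime] [Finite V₀] {E₀ : Subgroup (MulAut V₀)} {A₁ A₂ : Subgroup V₀}

/-- the exponent of `p` -/
theorem pow_det (hD : Dx ℓ E₀ A₁ A₂) {κ w p : V₀} (hκ : κ ∈ A₁) (hκ1 : κ ≠ 1) (hw : w ∈ A₂)
    (k : ℕ) (hp : p ∈ Subgroup.zpowers (κ * w)) (h : κ ^ k * p ∈ A₂) : p = (κ * w)⁻¹ ^ k := by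
  obtain ⟨j, hj⟩ := Subgroup.mem_zpowers_iff.1 hp
  have e : κ ^ k * p = κ ^ ((k : ℤ) + j) * w ^ j := by
    rw [← hj, mul_zpow, zpow_add, zpow_natCast, mul_assoc]
  have h1 : κ ^ ((k : ℤ) + j) ∈ A₂ := by
    have h0 := A₂.mul_mem h (A₂.inv_mem (A₂.zpow_mem hw j))
    rwa [e, mul_inv_cancel_right] at h0
  have h2 : κ ^ ((k : ℤ) + j) ∈ A₁ := A₁.zpow_mem hκ _
  have h3 : κ ^ ((k : ℤ) + j) = 1 := by
    have h0 : κ ^ ((k : ℤ) + j) ∈ A₁ ⊓ A₂ := ⟨h2, h1⟩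
    rw [hD.ds] at h0
    exact Subgroup.mem_bot.1 h0
  have ho : orderOf κ = ℓ := orderOf_eq_prime (hD.ex κ) hκ1
  have h4 : (ℓ : ℤ) ∣ k + j := by
    rw [← ho]
    exact orderOf_dvd_iff_zpow_eq_one.2 h3
  obtain ⟨z, hz⟩ := h4
  have h5 : (κ * w) ^ ((k : ℤ) + j) = 1 := by
    rw [hz, zpow_mul, zpow_natCast, hD.ex, one_zpow]
  rw [zpow_add, zpow_natCast] at h5
  rw [← hj, inv_pow]
  exact eq_inv_of_mul_eq_one_right h5

/-- `aL` is not in `A₁` -/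
theorem aL_alt (dix : DixStmt) (hD : Dx ℓ E₀ A₁ A₂) {κ : V₀} (hκ : κ ∈ A₁)
    {L : Set (SO.SS n V₀)} (hL : Of A₁ A₂ (pL L)) : aL κ L = A₂ ∨ Of A₁ A₂ (aL κ L) := by
  obtain ⟨-, ⟨-, -, -, -, -, h1, -⟩, -⟩ := dix ℓ V₀ E₀ A₁ A₂ hD
  by_cases h : aL κ L = A₂
  · exact Or.inl h
  · right
    have hle : ¬ aL κ L ≤ A₁ := by
      intro hle
      have h2 : pL L ≤ A₁ := by
        rw [pL_le_iff]
        intro s hs
        have h3 := (aL_le_iff κ L A₁).1 hle s hs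
        have h4 := A₁.mul_mem (A₁.inv_mem (A₁.pow_mem hκ (s.2.1 : ℕ))) h3
        rwa [inv_mul_cancel_left] at h4
      rcases h1 _ h2 with h3 | h3
      · exact hL.1 h3
      · exact hL.2.1 h3
    refine ⟨?_, ?_, h⟩
    · intro h0
      apply hle
      rw [h0]
      exact bot_le
    · intro h0
      apply hle
      rw [h0]

/-- the sets `L` of the conditions in `TP` -/
theorem key1 (dix : DixStmt) (hD : Dx ℓ E₀ A₁ A₂) {κ : V₀} (hκ : κ ∈ A₁) {σ : MulAut V₀}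
    {L : Set (SO.SS n V₀)} (hL : Of A₁ A₂ (pL L)) (hT : pL L ≠ ⊤) (hσ : σ ∈ EL E₀ L)
    (ha : aL κ L = A₂) : κ ≠ 1 ∧ κ ∉ pL L ∧ ∃ w ∈ A₂, w ≠ 1 ∧ L ⊆ TP n κ w σ ∧
      pL L = Subgroup.zpowers (κ * w) := by
  obtain ⟨-, -, -, -, -, -, h7⟩ := dix ℓ V₀ E₀ A₁ A₂ hD
  have hκ1 : κ ≠ 1 := by
    intro h1
    subst h1
    apply hL.2.2
    rw [← ha]
    apply le_antisymm
    · rw [pL_le_iff]
      intro s hs
      have h2 := (aL_le_iff 1 L (aL 1 L)).1 le_rfl s hs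
      rwa [one_pow, one_mul] at h2
    · rw [aL_le_iff]
      intro s hs
      rw [one_pow, one_mul]
      exact (pL_le_iff L (pL L)).1 le_rfl s hs
  obtain ⟨hn, w, hw, hw1, hp⟩ := (h7 κ hκ hκ1).2 _ hL hT
  refine ⟨hκ1, hn, w, hw, hw1, ?_, hp⟩
  intro s hs
  have h1 : s.2.2.1 = (κ * w)⁻¹ ^ (s.2.1 : ℕ) := by
    apply pow_det hD hκ hκ1 hw
    · rw [← hp]
      exact (pL_le_iff L (pL L)).1 le_rfl s hs
    · rw [← ha]
      exact (aL_le_iff κ L (aL κ L)).1 le_rfl s hs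
  refine ⟨h1, ?_⟩
  have h2 : σ s.2.2.2 = s.2.2.1 := hσ.2 s hs
  rw [h1] at h2
  have h3 : s.2.2.2 = σ⁻¹ ((κ * w)⁻¹ ^ (s.2.1 : ℕ)) := by
    rw [MulAut.inv_apply, MulEquiv.eq_symm_apply]
    exact h2
  rw [h3, map_pow, map_inv]

theorem key2 (dix : DixStmt) (hD : Dx ℓ E₀ A₁ A₂) {κ : V₀} (hκ : κ ∈ A₁) (hκ1 : κ ≠ 1)
    {σ : MulAut V₀} (hσ : σ ∈ E₀) {w : V₀} (hw : w ∈ A₂) (hw1 : w ≠ 1) {L : Set (SO.SS n V₀)}
    (hL : L ⊆ TP n κ w σ) (hb : pL L ≠ ⊥) : pL L = Subgroup.zpowers (κ * w) ∧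
      Of A₁ A₂ (pL L) ∧ pL L ≠ ⊤ ∧ σ ∈ EL E₀ L ∧ aL κ L = A₂ := by
  obtain ⟨-, ⟨-, -, -, -, -, -, h2⟩, -, -, -, -, h7⟩ := dix ℓ V₀ E₀ A₁ A₂ hD
  obtain ⟨hO, hT, -, -⟩ := (h7 κ hκ hκ1).1 w hw hw1
  have hp : pL L = Subgroup.zpowers (κ * w) := by
    apply line_eq (hD.ex _) _ hb
    rw [pL_le_iff]
    intro s hs
    rw [(hL hs).1]
    exact Subgroup.pow_mem _ (Subgroup.inv_mem _ (Subgroup.mem_zpowers _)) _
  have hp' : pL L = Subgroup.zpowers (κ * w) := hp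
  refine ⟨hp, ?_, ?_, ⟨hσ, ?_⟩, ?_⟩
  · rw [hp]
    exact hO
  · rw [hp]
    exact hT
  · intro s hs
    rw [(hL hs).2, (hL hs).1, map_pow, map_inv]
    congr 2
    exact MulEquiv.apply_symm_apply σ (κ * w)
  · have e : ∀ s ∈ L, κ ^ (s.2.1 : ℕ) * s.2.2.1 = w⁻¹ ^ (s.2.1 : ℕ) := by
      intro s hs
      rw [(hL hs).1, mul_inv, mul_pow, ← mul_assoc, ← mul_pow, mul_inv_cancel, one_pow, one_mul]
    have h3 : aL κ L ≤ A₂ := by
      rw [aL_le_iff]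
      intro s hs
      rw [e s hs]
      exact A₂.pow_mem (A₂.inv_mem hw) _
    rcases h2 _ h3 with h4 | h4
    · exfalso
      apply hb
      rw [eq_bot_iff, pL_le_iff]
      intro s hs
      have h5 := (aL_le_iff κ L (aL κ L)).1 le_rfl s hs
      rw [h4, e s hs, Subgroup.mem_bot] at h5
      have ho : orderOf w⁻¹ = ℓ := orderOf_eq_prime (hD.ex _) (inv_ne_one.2 hw1)
      have h6 : ℓ ∣ (s.2.1 : ℕ) := by
        rw [← ho]
        exact orderOf_dvd_of_pow_eq_one h5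
      obtain ⟨z, hz⟩ := h6
      rw [Subgroup.mem_bot, (hL hs).1, hz, pow_mul, hD.ex, one_pow]
    · exact h4

end comb

/-- F2E -/
theorem f2e (dix : DixStmt) (w2a : W2aStmt) (w2b : W2bStmt) : F2eStmt := by
  classical
  intro ℓ _ M _ hM hℓ V₀ G _ _ _ _ E₀ A₁ A₂ hD B hB n m hPE c d hc hd hc1 hd1 F₁₂
  have := Fintype.ofFinite V₀
  have : Finite (MulAut V₀) := inferInstance
  have := Fintype.ofFinite (MulAut V₀)
  have := Fintype.ofFinite (Set (SO.SS n V₀))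
  have hFq := hD.toFq
  obtain ⟨d1, ⟨d21, d22, d23, d24, d25, d26, d27⟩, d3, -, -, -, d7⟩ := dix ℓ V₀ E₀ A₁ A₂ hD
  have hzc : Subgroup.zpowers c = A₁ := (d3 c hc hc1).1
  have hzd : Subgroup.zpowers d = A₁ := (d3 d hd hd1).1
  obtain ⟨K, hK⟩ : ∃ K : ℂ, K = ((kE E₀ c : ℂ) * kE E₀ d)⁻¹ := ⟨_, rfl⟩
  obtain ⟨g, hg⟩ : ∃ g : Set (SO.SS n V₀) → MulAut V₀ → ℂ, g = fun L σ =>
    ((mob F₁₂ L : ℚ) : ℂ) * (((ux B.U (pL L) c * ux B.U (pL L) (σ d) /
      ux B.U (pL L) (c * σ d) : ℚ) : ℂ) * HK B m (c * σ d) L) := ⟨_, rfl⟩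
  have hκA : ∀ σ ∈ E₀, c * σ d ∈ A₁ := fun σ hσ => A₁.mul_mem hc (hD.s1 σ hσ d hd)
  -- not in `A₁`
  have hnot : ∀ W : Subgroup V₀, Of A₁ A₂ W → ¬ W ≤ A₁ := by
    intro W hW hle
    rcases d26 W hle with h | h
    · exact hW.1 h
    · exact hW.2.1 h
  -- the left side
  have hL1 : ∀ L : Set (SO.SS n V₀), Of A₁ A₂ (pL L) → (mob F₁₂ L : ℚ) *
      ((kf E₀ (pL L) c * kf E₀ (qL L) d : ℚ) : ℂ) * W12 B m c d L =
        K * ∑ᶠ σ ∈ EL E₀ L, g L σ := by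
    intro L hL
    have h1 := (w2a ℓ M hM hℓ V₀ G E₀ hFq B hB.toSb n m hPE c d L).2.2 hB (d1 _ hL)
    by_cases hE : EL E₀ L = ∅
    · rw [h1, hE, finsum_mem_empty, finsum_mem_empty, mul_zero, mul_zero]
    · obtain ⟨σ, hσ⟩ := Set.nonempty_iff_ne_empty.2 hE
      have hk1 : kf E₀ (pL L) c = (kE E₀ c : ℚ)⁻¹ := by
        unfold kf
        rw [if_neg]
        rw [hzc]
        exact hnot _ hL
      have hk2 : kf E₀ (qL L) d = (kE E₀ d : ℚ)⁻¹ := by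
        unfold kf
        rw [if_neg]
        rw [hzd]
        intro hle
        apply hnot _ hL
        rw [pL_le_iff]
        intro s hs
        rw [← hσ.2 s hs]
        exact hD.s1 σ hσ.1 _ ((qL_le_iff L A₁).1 hle s hs)
      rw [hk1, hk2, h1, hK, fin_mem, fin_mem, Finset.mul_sum, Finset.mul_sum]
      apply Finset.sum_congr rfl
      intro τ _
      by_cases hτ : τ ∈ EL E₀ L
      · rw [if_pos hτ, if_pos hτ, hg]
        push_cast
        ring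
      · rw [if_neg hτ, if_neg hτ, mul_zero, mul_zero]
  have hLHS : ∑ᶠ L ∈ {L : Set (SO.SS n V₀) | Of A₁ A₂ (pL L)}, (mob F₁₂ L : ℚ) *
      ((kf E₀ (pL L) c * kf E₀ (qL L) d : ℚ) : ℂ) * W12 B m c d L =
      K * ∑ L, ∑ σ, if Of A₁ A₂ (pL L) ∧ σ ∈ EL E₀ L then g L σ else 0 := by
    rw [fin_mem, Finset.mul_sum]
    apply Finset.sum_congr rfl
    intro L _
    by_cases hL : Of A₁ A₂ (pL L)
    · rw [if_pos (show L ∈ {L : Set (SO.SS n V₀) | Of A₁ A₂ (pL L)} from hL), hL1 L hL, fin_mem]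
      congr 1
      apply Finset.sum_congr rfl
      intro σ _
      by_cases hσ : σ ∈ EL E₀ L
      · rw [if_pos hσ, if_pos ⟨hL, hσ⟩]
      · rw [if_neg hσ, if_neg (fun h => hσ h.2)]
    · rw [if_neg (show L ∉ {L : Set (SO.SS n V₀) | Of A₁ A₂ (pL L)} from hL)]
      symm
      rw [Finset.sum_eq_zero, mul_zero]
      intro σ _
      rw [if_neg (fun h => hL h.1)]
  -- the first part
  have hP : ((PX12 E₀ A₁ A₂ B.U c d F₁₂ : ℚ) : ℂ) =
      ∑ L, ∑ σ, if Of A₁ A₂ (pL L) ∧ σ ∈ EL E₀ L ∧ Of A₁ A₂ (aL (c * σ d) L) then g L σ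
        else 0 := by
    unfold PX12
    rw [fin_mem, Rat.cast_sum]
    apply Finset.sum_congr rfl
    intro L _
    by_cases hL : Of A₁ A₂ (pL L)
    · rw [if_pos (show L ∈ {L : Set (SO.SS n V₀) | Of A₁ A₂ (pL L)} from hL)]
      unfold P12X
      rw [fin_mem, Rat.cast_mul, Rat.cast_sum, Finset.mul_sum]
      apply Finset.sum_congr rfl
      intro σ _
      by_cases hσ : σ ∈ {σ | σ ∈ EL E₀ L ∧ Of A₁ A₂ (aL (c * σ d) L)}
      · rw [if_pos hσ, if_pos ⟨hL, hσ.1, hσ.2⟩, hg]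
        simp only
        rw [w2b ℓ M hM hℓ V₀ G E₀ hFq B hB n m hPE (c * σ d) L (d1 _ hσ.2)]
        push_cast
        ring
      · rw [if_neg hσ, if_neg (fun h => hσ h.2), Rat.cast_zero, mul_zero]
    · rw [if_neg (show L ∉ {L : Set (SO.SS n V₀) | Of A₁ A₂ (pL L)} from hL), Rat.cast_zero]
      symm
      apply Finset.sum_eq_zero
      intro σ _
      rw [if_neg (fun h => hL h.1)]
  -- the second part
  have hX4 : AX4 E₀ A₂ B m c d F₁₂ =
      K * ∑ L, ∑ σ, if pL L = ⊤ ∧ σ ∈ EL E₀ L ∧ aL (c * σ d) L = A₂ then g L σ else 0 := by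
    unfold AX4
    rw [← hK, fin_mem]
    congr 1
    apply Finset.sum_congr rfl
    intro L _
    by_cases hL : pL L = ⊤
    · rw [if_pos (show L ∈ {L : Set (SO.SS n V₀) | pL L = ⊤} from hL), fin_mem, Finset.mul_sum]
      apply Finset.sum_congr rfl
      intro σ _
      by_cases hσ : σ ∈ {σ | σ ∈ EL E₀ L ∧ aL (c * σ d) L = A₂}
      · rw [if_pos hσ, if_pos ⟨hL, hσ.1, hσ.2⟩, hg]
        simp only
        rw [hL]
        unfold ux
        rw [if_pos (Subgroup.mem_top _), if_pos (Subgroup.mem_top _),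
          if_pos (Subgroup.mem_top _)]
        norm_num
      · rw [if_neg hσ, if_neg (fun h => hσ h.2), mul_zero]
    · rw [if_neg (show L ∉ {L : Set (SO.SS n V₀) | pL L = ⊤} from hL)]
      symm
      apply Finset.sum_eq_zero
      intro σ _
      rw [if_neg (fun h => hL h.1)]
  -- the third part
  have hX5 : AX5 E₀ A₂ B.U B m c d F₁₂ =
      K * ∑ L, ∑ σ, if (Of A₁ A₂ (pL L) ∧ pL L ≠ ⊤) ∧ σ ∈ EL E₀ L ∧ aL (c * σ d) L = A₂
        then g L σ else 0 := by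
    unfold AX5
    rw [← hK, fin_mem, Finset.sum_comm]
    congr 1
    apply Finset.sum_congr rfl
    intro σ _
    by_cases hσ : σ ∈ {σ : MulAut V₀ | σ ∈ E₀ ∧ c * σ d ≠ 1}
    · rw [if_pos hσ]
      have hT5 : ∀ w : V₀, T5 B m (c * σ d) w σ F₁₂ = ∑ L : Set (SO.SS n V₀),
          if L ∈ {L : Set (SO.SS n V₀) | L ⊆ TP n (c * σ d) w σ ∧ pL L ≠ ⊥} then
            ((mob F₁₂ L : ℚ) : ℂ) * HK B m (c * σ d) L else 0 := by
        intro w
        unfold T5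
        rw [fin_mem]
        refine Finset.sum_congr rfl fun L _ => ?_
        split_ifs <;> rfl
      have e1 : (∑ᶠ w ∈ {w : V₀ | w ∈ A₂ ∧ w ≠ 1},
          ((B.U (Subgroup.zpowers (c * σ d * w)) : ℚ) : ℂ) * T5 B m (c * σ d) w σ F₁₂) =
          ∑ w : V₀, ∑ L : Set (SO.SS n V₀), if (w ∈ A₂ ∧ w ≠ 1) ∧
            L ⊆ TP n (c * σ d) w σ ∧ pL L ≠ ⊥ then
              ((B.U (Subgroup.zpowers (c * σ d * w)) : ℚ) : ℂ) *
                (((mob F₁₂ L : ℚ) : ℂ) * HK B m (c * σ d) L) else 0 := by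
        rw [fin_mem]
        apply Finset.sum_congr rfl
        intro w _
        by_cases hw : w ∈ A₂ ∧ w ≠ 1
        · rw [if_pos (show w ∈ {w : V₀ | w ∈ A₂ ∧ w ≠ 1} from hw), hT5, Finset.mul_sum]
          apply Finset.sum_congr rfl
          intro L _
          by_cases hL : L ⊆ TP n (c * σ d) w σ ∧ pL L ≠ ⊥
          · rw [if_pos (show L ∈ {L : Set (SO.SS n V₀) | L ⊆ TP n (c * σ d) w σ ∧ pL L ≠ ⊥}
              from hL), if_pos ⟨hw, hL⟩]
          · rw [if_neg (show L ∉ {L : Set (SO.SS n V₀) | L ⊆ TP n (c * σ d) w σ ∧ pL L ≠ ⊥}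
              from hL), if_neg (fun h => hL h.2), mul_zero]
        · rw [if_neg (show w ∉ {w : V₀ | w ∈ A₂ ∧ w ≠ 1} from hw)]
          symm
          apply Finset.sum_eq_zero
          intro L _
          rw [if_neg (fun h => hw h.1)]
      rw [e1, Finset.sum_comm]
      apply Finset.sum_congr rfl
      intro L _
      by_cases hR : (Of A₁ A₂ (pL L) ∧ pL L ≠ ⊤) ∧ σ ∈ EL E₀ L ∧ aL (c * σ d) L = A₂
      · obtain ⟨k1, k2, w, hw, hw1, hLw, hpw⟩ :=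
          key1 dix hD (hκA σ hσ.1) hR.1.1 hR.1.2 hR.2.1 hR.2.2
        rw [if_pos hR, Finset.sum_eq_single w]
        · rw [if_pos ⟨⟨hw, hw1⟩, hLw, hR.1.1.1⟩, ← hpw, hg]
          simp only
          have hcn : c ∉ pL L := by
            intro h
            apply k2
            have h1 : A₁ ≤ pL L := by
              rw [← hzc, Subgroup.zpowers_le]
              exact h
            exact h1 (hκA σ hσ.1)
          have hsn : σ d ∉ pL L := by
            intro h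
            have hsd1 : σ d ≠ 1 := by
              intro h0
              apply hd1
              exact (map_eq_one_iff σ σ.injective).1 h0
            apply k2
            have h1 : A₁ ≤ pL L := by
              rw [← (d3 (σ d) (hD.s1 σ hσ.1 d hd) hsd1).1, Subgroup.zpowers_le]
              exact h
            exact h1 (hκA σ hσ.1)
          unfold ux
          rw [if_neg hcn, if_neg hsn, if_neg k2, mul_self_div_self]
          ring
        · intro w' _ hne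
          rw [if_neg]
          rintro ⟨⟨hw', hw'1⟩, hL', hb'⟩
          apply hne
          have h1 := (key2 dix hD (hκA σ hσ.1) k1 hσ.1 hw' hw'1 hL' hb').1
          exact (((d7 _ (hκA σ hσ.1) k1).1 w hw hw1).2.2.2 w' hw' (by rw [← h1, hpw]))
        · intro h
          exact absurd (Finset.mem_univ w) h
      · rw [if_neg hR]
        apply Finset.sum_eq_zero
        intro w _
        rw [if_neg]
        rintro ⟨⟨hw, hw1⟩, hL', hb'⟩
        apply hR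
        obtain ⟨-, h2, h3, h4, h5⟩ := key2 dix hD (hκA σ hσ.1) hσ.2 hσ.1 hw hw1 hL' hb'
        exact ⟨⟨h2, h3⟩, h4, h5⟩
    · rw [if_neg hσ]
      symm
      apply Finset.sum_eq_zero
      intro L _
      rw [if_neg]
      rintro ⟨⟨h1, h2⟩, h3, h4⟩
      exact hσ ⟨h3.1, (key1 dix hD (hκA σ h3.1) h1 h2 h3 h4).1⟩
  rw [hLHS, hP, hX4, hX5, ← hK, ← mul_add, ← mul_add, ← Finset.sum_add_distrib,
    ← Finset.sum_add_distrib]
  congr 1
  apply Finset.sum_congr rfl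
  intro L _
  rw [← Finset.sum_add_distrib, ← Finset.sum_add_distrib]
  apply Finset.sum_congr rfl
  intro σ _
  have hOT : pL L = ⊤ → Of A₁ A₂ (pL L) := by
    intro h
    rw [h]
    refine ⟨?_, ?_, ?_⟩
    · intro h0
      apply d23
      rw [eq_top_iff, h0]
      exact bot_le
    · exact fun h0 => d23 h0.symm
    · exact fun h0 => d24 h0.symm
  by_cases hL : Of A₁ A₂ (pL L) ∧ σ ∈ EL E₀ L
  · rw [if_pos hL]
    have hA2 : ¬ Of A₁ A₂ A₂ := fun h => h.2.2 rfl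
    rcases aL_alt dix hD (hκA σ hL.2.1) hL.1 with ha | ha
    · have hn1 : ¬ (Of A₁ A₂ (pL L) ∧ σ ∈ EL E₀ L ∧ Of A₁ A₂ (aL (c * σ d) L)) := by
        rintro ⟨-, -, h⟩
        rw [ha] at h
        exact hA2 h
      rw [if_neg hn1]
      by_cases ht : pL L = ⊤
      · rw [if_pos ⟨ht, hL.2, ha⟩, if_neg (fun h => h.1.2 ht), zero_add, add_zero]
      · rw [if_neg (fun h => ht h.1), if_pos ⟨⟨hL.1, ht⟩, hL.2, ha⟩, zero_add, zero_add]
    · have hne : aL (c * σ d) L ≠ A₂ := ha.2.2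
      rw [if_pos ⟨hL.1, hL.2, ha⟩, if_neg (fun h => hne h.2.2), if_neg (fun h => hne h.2.2),
        add_zero, add_zero]
  · rw [if_neg hL, if_neg (fun h => hL ⟨h.1, h.2.1⟩), if_neg (fun h => hL ⟨hOT h.1, h.2.1⟩),
      if_neg (fun h => hL ⟨h.1.1, h.2.1⟩), add_zero, add_zero]

end Pool.Agent.PP.SD.H49
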