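import Pool.Agent.ASD.Stmts3
import Pool.Agent.ASD.Stmts4
import Pool.Agent.Helper79_ASO.WTH

/-!
# Squad ASD, row W3C: `W13` in terms of characters
-/

open scoped BigOperators

noncomputable section

namespace Pool.Agent.PP.SD.H49

open Pool.Agent.Helper51_AWC Pool.Agent.Helper79_WRA Pool.Agent.PP Pool.Agent.PP.KF
open Pool.Agent.PP.K9 Pool.Agent.PP.K9.H97 Pool.Agent.PP.H75 Pool.Agent.PP.T3 Pool.Agent.PP.SO

attribute [local instance] Ideal.Quotient.field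

theorem w3c (fcd : FcdStmt) : W3cStmt := by
  intro ℓ _ M _ hM hℓ V₀ G _ _ _ _ E₀ hF B hS n m hPE c d L
  classical
  have iG := Fintype.ofFinite G
  have f1 := (fcd ℓ M hM V₀ G E₀ hF B hS (pL L)).1
  have f2 := (fcd ℓ M hM V₀ G E₀ hF B hS (qL L)).1
  have h := SO.H79.w13_SL B m c d L (fun χ h h' h'' => f1 χ h h' h'' c)
    (fun χ h h' h'' => f2 χ h h' h'' d)
  have e1 : SO.H79.Lm L = Lm L := by
    ext s
    exact ⟨fun ⟨t, ht, h⟩ => ⟨t, ht, h.symm⟩, fun ⟨t, ht, h⟩ => ⟨t, ht, h.symm⟩⟩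
  have e2 : SO.H79.Lp L = Lq L := by
    ext s
    exact ⟨fun ⟨t, ht, h⟩ => ⟨t, ht, h.symm⟩, fun ⟨t, ht, h⟩ => ⟨t, ht, h.symm⟩⟩
  rw [e1, e2] at h
  rw [h, finsum_mem_eq_finite_toFinset_sum _ (SO.H79.ch_finite B (pL L)), ← inv_pow]
  congr 1
  refine Finset.sum_congr rfl fun χ _ => ?_
  rw [finsum_mem_eq_finite_toFinset_sum _ (SO.H79.ch_finite B (qL L))]

end Pool.Agent.PP.SD.H49
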